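import Pool.Graph.R_pool_sql_team_seeded_b0a926ef.R669.SwA

/-!
# Sandwich sets of elements of odd order: two and three elements

We use the notation `k x y = x⁻¹ y⁻¹ x y` and `cj x y = y⁻¹ x y` and the general lemmas on sandwich
sets of `R669/SwA.lean`.  The proofs are those of `H325/A.lean` (elements of order three, by helper325)
and of `R669/SwA.lean`, `R669/SwB.lean` (groups of exponent five), changed to elements with `x ^ ν = 1`,
`ν` an odd number, in arbitrary groups.
-/

set_option autoImplicit false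
set_option linter.unusedSectionVars false

namespace Pool.Agent.H392.OC

open Pool.Agent.R669 (Sw.k Sw.cj)
open Pool.Agent.R669.Sw

universe u

variable {G : Type u} [Group G] {ν : ℕ} [hν : Fact (Odd ν)]

theorem comm_k {w x y : G} (h1 : Commute w x) (h2 : Commute w y) : Commute w (k x y) := by
  unfold k
  exact ((h1.inv_right.mul_right h2.inv_right).mul_right h1).mul_right h2

/-- an element of odd order is a power of its square -/
theorem sq_sq {x : G} (h : x ^ ν = 1) : (x ^ 2) ^ ((ν + 1) / 2) = x := by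
  obtain ⟨m, hm⟩ := hν.out
  have e : 2 * ((ν + 1) / 2) = ν + 1 := by omega
  rw [← pow_mul, e, pow_succ, h, one_mul]

theorem sq_comm {x y : G} (h3 : x ^ ν = 1) (h : Commute (x ^ 2) y) : Commute x y := by
  rw [← sq_sq h3]
  exact h.pow_left _

theorem sq_inj {x y : G} (hx : x ^ ν = 1) (hy : y ^ ν = 1) (h : x ^ 2 = y ^ 2) : x = y := by
  rw [← sq_sq hx, ← sq_sq hy, h]

theorem c_one {c : G} (h3 : c ^ ν = 1) (h : c ^ 2 = 1) : c = 1 := by
  rw [← sq_sq h3, h, one_pow]

theorem cube_mul {x y : G} (h : Commute x y) (hx : x ^ ν = 1) (hy : y ^ ν = 1) :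
    (x * y) ^ ν = 1 := by
  rw [h.mul_pow, hx, hy, one_mul]

theorem cube_inv {x : G} (hx : x ^ ν = 1) : x⁻¹ ^ ν = 1 := by
  rw [inv_pow, hx, inv_one]

theorem cube_cj {x : G} (hx : x ^ ν = 1) (g : G) : (cj x g) ^ ν = 1 := by
  rw [← cj_pow, hx]
  simp [Sw.cj]

/-- if `a` commutes with `[a, d]` and `a ^ ν = 1`, then `[a, d] ^ ν = 1` -/
theorem cube_k {a d : G} (ha : a ^ ν = 1) (h : Commute a (k a d)) : (k a d) ^ ν = 1 := by
  have e : k a d = a⁻¹ * cj a d := k_eq a d
  have h2 : Commute a (cj a d) := by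
    rw [cj_eq]
    exact (Commute.refl a).mul_right h
  rw [e]
  exact cube_mul h2.inv_left (cube_inv ha) (cube_cj ha d)

/-- conjugation by the inverse -/
theorem cj_inv_r' {x y : G} (h : Commute y (k x y)) : cj x y⁻¹ = x * (k x y)⁻¹ := by
  have h1 : cj (x * (k x y)⁻¹) y = x := by
    rw [cj_mul, cj_of_comm h.symm.inv_left, cj_eq, mul_inv_cancel_right]
  calc cj x y⁻¹ = cj (cj (x * (k x y)⁻¹) y) y⁻¹ := by rw [h1]
    _ = x * (k x y)⁻¹ := by rw [cj_cj, mul_inv_cancel, cj_one]

/-- the first step -/
theorem L1 {X : Set G} (hX : Sand X) {s a z : G} (hs : Good X s) (hs3 : s ^ ν = 1)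
    (z3 : z ^ ν = 1) (hz : Commute z a) (ha : a ∈ X) (hyz : a * z ∈ X) (hy1 : a * z⁻¹ ∈ X)
    (hy2 : a * z⁻¹ ^ 2 ∈ X) :
    Commute z (k s a) ∧ Commute (k s z) a ∧ Commute (k s z) s ∧ Commute (k s z) z := by
  set u := k s a with hu
  have us : Commute s u := (hs a ha).1
  have ua : Commute a u := (hs a ha).2
  have u3 : u ^ ν = 1 := cube_k hs3 us
  -- the element `S2`
  set S2 := cj s (z ^ 2) with hS2
  have gS2 : Good X S2 := hs.cj hX _
  have csa : cj s a = s * u := cj_eq s a
  have csa2 : cj s (a ^ 2) = s * u ^ 2 := hs.cj_pow ha 2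
  have hzn : ∀ m n : ℕ, Commute (z ^ m) (a ^ n) := fun m n => (hz.pow_pow m n)
  have e3 : z ^ 2 * (a * z⁻¹ ^ 2) = a := by
    rw [← mul_assoc, (hz.pow_left 2).eq, inv_pow, mul_inv_cancel_right]
  have e4 : z ^ 2 * (a * z⁻¹) = a * z := by
    rw [← mul_assoc, (hz.pow_left 2).eq, pow_two, ← mul_assoc, mul_inv_cancel_right]
  have e5 : z ^ 2 * (a * z⁻¹) ^ 2 = a ^ 2 := by
    rw [(hz.inv_left.symm).mul_pow, ← mul_assoc, (hzn 2 2).eq, inv_pow, mul_inv_cancel_right]
  have e6 : (a * z) ^ 2 = a ^ 2 * z ^ 2 := hz.symm.mul_pow 2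
  -- `S2` commutes with `s u` and `s u ^ 2`
  have c1 : Commute S2 (s * u) := by
    have h1 : Sw.cj S2 (a * z⁻¹ ^ 2) = s * u := by rw [hS2, cj_cj, e3, csa]
    rw [← h1, cj_eq]
    exact (Commute.refl _).mul_right (gS2 _ hy2).1
  have c2 : Commute S2 (s * u ^ 2) := by
    have h1 : Sw.cj S2 ((a * z⁻¹) ^ 2) = s * u ^ 2 := by rw [hS2, cj_cj, e5, csa2]
    rw [← h1, gS2.cj_pow hy1]
    exact (Commute.refl _).mul_right ((gS2 _ hy1).1.pow_right 2)
  have c3 : Commute S2 u := by
    have h1 : (s * u)⁻¹ * (s * u ^ 2) = u := by group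
    rw [← h1]
    exact c1.inv_right.mul_right c2
  have c4 : Commute S2 s := by
    have h1 : s * u * u⁻¹ = s := by group
    rw [← h1]
    exact c1.mul_right c3.inv_right
  -- the parallelogram
  have q1 : s * cj s ((a * z) ^ 2) = (cj s (a * z)) ^ 2 := by
    rw [hs.cj_pow hyz, cj_eq, ((hs _ hyz).1).mul_pow, pow_two s, mul_assoc]
  have q2 : S2 * cj S2 ((a * z⁻¹) ^ 2) = (cj S2 (a * z⁻¹)) ^ 2 := by
    rw [gS2.cj_pow hy1, cj_eq, ((gS2 _ hy1).1).mul_pow, pow_two S2, mul_assoc]
  have q3 : cj S2 (a * z⁻¹) = cj s (a * z) := by rw [hS2, cj_cj, e4]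
  have q4 : cj S2 ((a * z⁻¹) ^ 2) = s * u ^ 2 := by rw [hS2, cj_cj, e5, csa2]
  have q5 : cj s ((a * z) ^ 2) = S2 * (cj u (z ^ 2)) ^ 2 := by
    rw [e6, ← cj_cj, csa2, cj_mul, Pool.Agent.R669.Sw.cj_pow]
  have q6 : s * (S2 * (cj u (z ^ 2)) ^ 2) = S2 * (s * u ^ 2) := by
    rw [← q5, q1, ← q3, ← q2, q4]
  have q7 : (cj u (z ^ 2)) ^ 2 = u ^ 2 := by
    rw [← mul_assoc, ← mul_assoc, c4.eq] at q6
    exact mul_left_cancel q6
  have uz2 : Commute u (z ^ 2) := by
    refine sq_comm u3 (comm_of_cj ?_)
    rw [Pool.Agent.R669.Sw.cj_pow]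
    exact q7
  have uz : Commute z u := sq_comm z3 uz2.symm
  -- the element `cj s z`
  have csz : cj s (a * z) = cj s z * u := by
    rw [← cj_cj, csa, cj_mul, cj_of_comm uz.symm]
  have d1 : Commute s (cj s z) := by
    have h1 : Commute s (cj s z * u) := by
      rw [← csz, cj_eq]
      exact (Commute.refl _).mul_right (hs _ hyz).1
    have h2 : cj s z * u * u⁻¹ = cj s z := by group
    rw [← h2]
    exact h1.mul_right us.inv_right
  have d2 : Commute (cj s z) u := by
    have := comm_cj us z
    rwa [cj_of_comm uz.symm] at this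
  set v := k s z with hv
  have hv' : v = s⁻¹ * cj s z := k_eq s z
  have vs : Commute v s := by
    rw [hv']
    exact ((Commute.refl s).inv_left).mul_left d1.symm
  have vu : Commute v u := by
    rw [hv']
    exact (us.inv_left).mul_left d2
  have va : Commute v a := by
    apply comm_of_cj
    have h1 : cj (cj s z) a = cj s z * u := by rw [cj_cj, hz.eq, csz]
    calc cj v a = (cj s a)⁻¹ * cj (cj s z) a := by rw [hv', cj_mul, cj_inv]
      _ = u⁻¹ * (s⁻¹ * cj s z) * u := by rw [csa, h1]; group
      _ = u⁻¹ * v * u := by rw [← hv']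
      _ = v := by rw [mul_assoc, vu.eq, inv_mul_cancel_left]
  have vz : Commute v z := by
    apply comm_of_cj
    have h1 : cj s z = s * v := cj_eq s z
    have h2 : S2 = s * v * cj v z := by
      rw [hS2, pow_two, ← cj_cj, h1, cj_mul, h1]
    have h3 : s * (S2 * u ^ 2) = (s * v * u) ^ 2 := by
      have : cj u (z ^ 2) = u := cj_of_comm uz2
      rw [← h1, ← csz, ← q1, q5, this]
    have h4 : (s * v * u) ^ 2 = s * (s * v * v * u ^ 2) := by
      have e1 : Commute (s * v) u := us.mul_left vu
      rw [e1.mul_pow, vs.symm.mul_pow, pow_two, pow_two]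
      group
    rw [h4] at h3
    have h5' := mul_left_cancel h3
    have h6 : S2 = s * v * v := mul_right_cancel h5'
    rw [h2] at h6
    exact mul_left_cancel h6
  exact ⟨uz, va, vs, vz⟩

/-- one half of the relations -/
structure Hf (s a d : G) : Prop where
  us : Commute s (k s a)
  ua : Commute a (k s a)
  za : Commute (k a d) a
  zd : Commute (k a d) d
  zu : Commute (k a d) (k s a)
  va : Commute (k s (k a d)) a
  vs : Commute (k s (k a d)) s
  vz : Commute (k s (k a d)) (k a d)
  aU : Commute a (cj (k s a) d)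
  zU : Commute (k a d) (cj (k s a) d)
  uU : Commute (k s a) (cj (k s a) d)
  dp : Commute d (k (k s a) d)
  gd : Commute (s * k s a) (k (s * k s a) d)

theorem hf {X : Set G} (hX : Sand X) (h3 : ∀ x ∈ X, x ^ ν = 1) {s a d : G} (hs : Good X s)
    (hs3 : s ^ ν = 1) (ha : a ∈ X) (hd : d ∈ X) : Hf s a d := by
  set z := k a d with hz
  set u := k s a with hu
  have za : Commute z a := (hX.two a ha d hd).symm
  have zd : Commute z d := ((hX.good ha) d hd).2.symm
  have z3 : z ^ ν = 1 := cube_k (h3 a ha) za.symm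
  have hy0 : a * z ∈ X := by
    have := hX.cj a ha d
    rwa [cj_eq a d, ← hz] at this
  have ed : cj a d⁻¹ = a * z⁻¹ := cj_inv_r' zd.symm
  have hy1 : a * z⁻¹ ∈ X := by
    rw [← ed]
    exact hX.cj a ha _
  have hy2 : a * z⁻¹ ^ 2 ∈ X := by
    have h1 : cj (a * z⁻¹) d⁻¹ = a * z⁻¹ ^ 2 := by
      rw [cj_mul, ed, cj_of_comm zd.inv_inv, pow_two, mul_assoc]
    rw [← h1]
    exact hX.cj _ hy1 _
  obtain ⟨zu, va, vs, vz⟩ := L1 hX hs hs3 z3 za ha hy0 hy1 hy2
  have ua : Commute a u := (hs a ha).2
  have us : Commute s u := (hs a ha).1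
  have zU : Commute z (cj u d) := by
    have := comm_cj zu d
    rwa [cj_of_comm zd] at this
  have aU : Commute a (cj u d) := by
    have h1 := comm_cj ua d
    rw [cj_eq a d, ← hz] at h1
    have h2 : a * z * z⁻¹ = a := by group
    rw [← h2]
    exact h1.mul_left zU.inv_left
  -- the pair `a u⁻¹`, `d`
  have e1 : cj a s = a * u⁻¹ := by rw [cj_eq, ← k_inv]
  have h1 : a * u⁻¹ ∈ X := by rw [← e1]; exact hX.cj a ha s
  have e2 : k (a * u⁻¹) d = u * z * (cj u d)⁻¹ := by
    rw [k_eq, cj_mul, cj_inv, cj_eq a d, ← hz]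
    group
  have g1 := (hX.good h1) d hd
  rw [e2] at g1
  have uU : Commute u (cj u d) := by
    have a1 : Commute a (u * z * (cj u d)⁻¹) := (ua.mul_right za.symm).mul_right aU.inv_right
    have a2 : Commute u (u * z * (cj u d)⁻¹) := by
      have : Commute (a⁻¹ * (a * u⁻¹))⁻¹ (u * z * (cj u d)⁻¹) :=
        (a1.inv_left.mul_left g1.1).inv_left
      have e : (a⁻¹ * (a * u⁻¹))⁻¹ = u := by group
      rwa [e] at this
    have a3 : Commute u ((u * z * (cj u d)⁻¹)⁻¹ * (u * z)) :=
      a2.inv_right.mul_right ((Commute.refl u).mul_right zu.symm)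
    have e : (u * z * (cj u d)⁻¹)⁻¹ * (u * z) = cj u d := by group
    rwa [e] at a3
  have dp : Commute d (k u d) := by
    have a1 : Commute d (u * z * (cj u d)⁻¹ * z⁻¹) := g1.2.mul_right zd.symm.inv_right
    have e : u * z * (cj u d)⁻¹ * z⁻¹ = (k u d)⁻¹ := by
      rw [mul_assoc u z, (zU.inv_right).eq, k_eq, uU.inv_left.eq]
      group
    rw [e] at a1
    simpa using a1.inv_right
  have gd : Commute (s * u) (k (s * u) d) := by
    have := ((hs.cj hX a) d hd).1
    rwa [cj_eq s a] at this
  exact ⟨us, ua, za, zd, zu, va, vs, vz, aU, zU, uU, dp, gd⟩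

/-- the conclusion -/
structure Vc (s a d : G) : Prop where
  ut : Commute (k s a) (k s d)
  vs : Commute (k s (k a d)) s
  va : Commute (k s (k a d)) a
  vd : Commute (k s (k a d)) d
  ps : Commute (k (k s a) d) s
  pa : Commute (k (k s a) d) a
  pd : Commute (k (k s a) d) d
  qs : Commute (k (k s d) a) s
  qa : Commute (k (k s d) a) a
  qd : Commute (k (k s d) a) d
  eq : k (k s a) d = k s (k a d) * k (k s d) a

theorem lemV {X : Set G} (hX : Sand X) (h3 : ∀ x ∈ X, x ^ ν = 1) {s a d : G} (hs : Good X s)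
    (hs3 : s ^ ν = 1) (ha : a ∈ X) (hd : d ∈ X) : Vc s a d := by
  have H := hf hX h3 hs hs3 ha hd
  have K := hf hX h3 hs hs3 hd ha
  set z := k a d with hz
  set u := k s a with hu
  set t := k s d with ht
  have hz' : k d a = z⁻¹ := by rw [hz, k_inv]
  set v := k s z with hv
  have hUe : cj u d = u * k u d := cj_eq u d
  have hTe : cj t a = t * k t a := cj_eq t a
  set p := k u d with hp
  set q := k t a with hq
  set U := cj u d with hU
  set T := cj t a with hT
  have us : Commute s u := H.us
  have ts : Commute s t := K.us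
  have ua : Commute a u := H.ua
  have td : Commute d t := K.ua
  have u3 : u ^ ν = 1 := cube_k hs3 us
  have zu : Commute z u := H.zu
  have zt : Commute z t := by
    have := K.zu
    rw [hz'] at this
    simpa using this.inv_left
  have va : Commute v a := H.va
  have vs : Commute v s := H.vs
  have vz : Commute v z := H.vz
  -- `k s z⁻¹ = v⁻¹`
  have hv' : k s z⁻¹ = v⁻¹ := by
    have h1 : cj s z⁻¹ = s * v⁻¹ := by
      have h2 : cj (s * v) z⁻¹ = s := by rw [hv, ← cj_eq, cj_cj, mul_inv_cancel, cj_one]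
      rw [cj_mul, cj_of_comm (vz.inv_right)] at h2
      rw [eq_mul_inv_iff_mul_eq]
      exact h2
    rw [k_eq, h1]
    group
  have vd : Commute v d := by
    have h1 := K.va
    rw [hz', hv'] at h1
    simpa using h1.inv_left
  have vu : Commute v u := comm_k vs va
  have vt : Commute v t := comm_k vs vd
  have aU : Commute a U := H.aU
  have zU : Commute z U := H.zU
  have uU : Commute u U := H.uU
  have dT : Commute d T := K.aU
  have zT : Commute z T := by
    have := K.zU
    rw [hz'] at this
    simpa using this.inv_left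
  have tT : Commute t T := K.uU
  have hp' : p = u⁻¹ * U := by rw [hUe]; group
  have hq' : q = t⁻¹ * T := by rw [hTe]; group
  have pd : Commute p d := H.dp.symm
  have qa : Commute q a := K.dp.symm
  have pa : Commute p a := by rw [hp']; exact (ua.symm.inv_left).mul_left aU.symm
  have qd : Commute q d := by rw [hq']; exact (td.symm.inv_left).mul_left dT.symm
  have pu : Commute p u := by rw [hp']; exact ((Commute.refl u).inv_left).mul_left uU.symm
  have qt : Commute q t := by rw [hq']; exact ((Commute.refl t).inv_left).mul_left tT.symm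
  have vp : Commute v p := comm_k vu vd
  have vq : Commute v q := comm_k vt va
  -- the relation between `U` and `T`
  have eE : t * U = v * u * T := by
    have h1 : cj s (a * d) = s * t * U := by
      rw [← cj_cj, cj_eq s a, ← hu, cj_mul, cj_eq s d, ← ht]
    have h2 : cj s (d * a * z) = s * v * u * T := by
      rw [← cj_cj, ← cj_cj, cj_eq s d, ← ht, cj_mul, cj_eq s a, ← hu, cj_mul, cj_mul,
        cj_eq s z, ← hv, cj_of_comm zu.symm, cj_of_comm zT.symm]
    have h3 : d * a * z = a * d := by rw [hz]; unfold k; group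
    rw [h3, h1] at h2
    have h4 : s * (t * U) = s * (v * u * T) := by
      rw [← mul_assoc, h2]; group
    exact mul_left_cancel h4
  set c := k u t with hc
  have hut : u * t = t * u * c := by rw [hc]; unfold k; group
  have hce : c = v⁻¹ * p * q⁻¹ := by
    have h1 : t * u * p = v * (u * t) * q := by
      rw [hUe, hTe] at eE
      calc t * u * p = t * (u * p) := by group
        _ = v * u * (t * q) := eE
        _ = v * (u * t) * q := by group
    rw [hut] at h1
    have h2 : v * (t * u * c) * q = t * u * (v * c * q) := by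
      rw [← mul_assoc, ← mul_assoc, ← mul_assoc, vt.eq, mul_assoc t v u, vu.eq]
      group
    rw [h2] at h1
    have h3 := mul_left_cancel h1
    rw [h3]
    group
  have ca : Commute c a := by
    rw [hce]; exact ((va.inv_left).mul_left pa).mul_left qa.inv_left
  have cd : Commute c d := by
    rw [hce]; exact ((vd.inv_left).mul_left pd).mul_left qd.inv_left
  have Uq : Commute U q := by
    apply comm_of_cj
    have h1 : c = k u T := by
      have h1 := cj_of_comm ca
      rw [hc, cj_k, cj_of_comm ua.symm] at h1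
      exact h1.symm
    have h2 : k u T = k u q * cj c q := by rw [hTe, k_mul_right]
    have h3 : cj c q = v⁻¹ * cj p q * q⁻¹ := by
      rw [hce, cj_mul, cj_mul, cj_of_comm vq.inv_left, cj_of_comm (Commute.refl q).inv_left]
    have h4 : p = k u q * cj p q := by
      have h5' : v⁻¹ * p * q⁻¹ = k u q * (v⁻¹ * cj p q * q⁻¹) := by
        rw [← h3, ← h2, ← h1, hce]
      have h6 : Commute v⁻¹ (k u q) := comm_k vu.inv_left vq.inv_left
      have h7 : k u q * (v⁻¹ * cj p q * q⁻¹) = v⁻¹ * (k u q * cj p q) * q⁻¹ := by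
        rw [← mul_assoc, ← mul_assoc, h6.symm.eq]
        group
      rw [h7] at h5'
      exact mul_left_cancel (mul_right_cancel h5')
    calc cj U q = cj u q * cj p q := by rw [hUe, cj_mul]
      _ = u * (k u q * cj p q) := by rw [k_eq]; group
      _ = u * p := by rw [← h4]
      _ = U := hUe.symm
  have uq : Commute u q := by
    have h1 := comm_cj Uq d⁻¹
    rwa [hU, cj_cj, mul_inv_cancel, cj_one, cj_of_comm qd.inv_right] at h1
  have pq : Commute p q := by rw [hp']; exact (uq.inv_left).mul_left Uq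
  have pt : Commute p t := by
    rw [← k_eq_one]
    have h1 : c = k U t := by
      have h1 := cj_of_comm cd
      rw [hc, cj_k, cj_of_comm td.symm] at h1
      exact h1.symm
    have h2 : k U t = cj c p * k p t := by rw [hUe, k_mul_left]
    have h3 : cj c p = c := by
      apply cj_of_comm
      rw [hce]
      exact ((vp.inv_left).mul_left (Commute.refl p)).mul_left pq.symm.inv_left
    rw [h2, h3] at h1
    exact (mul_eq_left.1 h1.symm)
  have cu : Commute c u := by
    rw [hce]; exact ((vu.inv_left).mul_left pu).mul_left uq.symm.inv_left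
  have ct : Commute c t := by
    rw [hce]; exact ((vt.inv_left).mul_left pt).mul_left qt.inv_left
  have c3 : c ^ ν = 1 := cube_k u3 cu.symm
  have cs : Commute c s := (comm_k us ts).symm
  have cp : Commute c p := by
    rw [hce]; exact ((vp.inv_left).mul_left (Commute.refl p)).mul_left pq.symm.inv_left
  have cq : Commute c q := by
    rw [hce]; exact ((vq.inv_left).mul_left pq).mul_left (Commute.refl q).inv_left
  -- the two remaining relations
  have r1 : s * q = q * s * c := by
    have h1 := K.gd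
    have h2 : k (s * t) a = u * c * q := by
      rw [k_eq, cj_mul, cj_eq s a, ← hu, ← hT, hTe, hc]
      unfold k
      group
    rw [h2] at h1
    have h3 : s * t * (u * c * q) = u * s * (t * q) := by
      calc s * t * (u * c * q) = s * (t * u * c) * q := by group
        _ = s * u * (t * q) := by rw [← hut]; group
        _ = u * s * (t * q) := by rw [us.eq]
    have h4 : u * c * q * (s * t) = u * (q * s * c) * t := by
      calc u * c * q * (s * t) = u * (c * (q * s)) * t := by group
        _ = u * (q * s * c) * t := by rw [(cq.mul_right cs).eq]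
    have h5' : u * s * (t * q) = u * (q * s * c) * t := by
      rw [← h3, ← h4]; exact h1.eq
    rw [← qt.eq] at h5'
    have h6 : u * (s * q * t) = u * (q * s * c * t) := by
      calc u * (s * q * t) = u * s * (q * t) := by group
        _ = _ := by rw [h5']; group
    exact mul_right_cancel (mul_left_cancel h6)
  have r2 : p * s = s * p * c := by
    have h1 := H.gd
    have h2 : k (s * u) d = t * c⁻¹ * p := by
      rw [k_eq, cj_mul, cj_eq s d, ← ht, ← hU, hUe, hc]
      unfold k
      group
    rw [h2] at h1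
    have h3 : s * u * (t * c⁻¹ * p) = t * (s * (u * p)) := by
      calc s * u * (t * c⁻¹ * p) = s * (u * t * c⁻¹) * p := by group
        _ = s * (t * u) * p := by rw [hut, mul_inv_cancel_right]
        _ = s * t * (u * p) := by group
        _ = t * (s * (u * p)) := by rw [ts.eq]; group
    have h4 : t * c⁻¹ * p * (s * u) = t * (p * s * u * c⁻¹) := by
      calc t * c⁻¹ * p * (s * u) = t * (c⁻¹ * (p * s * u)) := by group
        _ = t * (p * s * u * c⁻¹) := by
          rw [(((cp.inv_left).mul_right cs.inv_left).mul_right cu.inv_left).eq]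
    have h5' : t * (s * (u * p)) = t * (p * s * u * c⁻¹) := by
      rw [← h3, ← h4]; exact h1.eq
    have h6 := mul_left_cancel h5'
    rw [← pu.eq] at h6
    have h7 : s * p * c * u = p * s * u := by
      calc s * p * c * u = s * (p * u) * c := by
            rw [mul_assoc _ c u, cu.eq]; group
        _ = p * s * u := by rw [h6]; group
    have h8 := mul_right_cancel h7
    exact h8.symm
  have c2 : c ^ 2 = 1 := by
    have h1 : Commute (p * q⁻¹) s := by
      have : p * q⁻¹ = v * c := by rw [hce]; group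
      rw [this]
      exact vs.mul_left cs
    have h2 : q⁻¹ * s = s * c * q⁻¹ := by
      have : q⁻¹ * (s * q) * q⁻¹ = q⁻¹ * (q * s * c) * q⁻¹ := by rw [r1]
      calc q⁻¹ * s = q⁻¹ * (s * q) * q⁻¹ := by group
        _ = q⁻¹ * (q * s * c) * q⁻¹ := this
        _ = s * c * q⁻¹ := by group
    have h3 : s * p * (c ^ 2) * q⁻¹ = s * p * 1 * q⁻¹ := by
      calc s * p * (c ^ 2) * q⁻¹ = (s * p * c) * c * q⁻¹ := by rw [pow_two]; group
        _ = p * (s * c * q⁻¹) := by rw [← r2]; group
        _ = p * q⁻¹ * s := by rw [← h2]; group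
        _ = s * (p * q⁻¹) := h1.eq
        _ = s * p * 1 * q⁻¹ := by group
    exact mul_left_cancel (mul_right_cancel h3)
  have c1 : c = 1 := c_one c3 c2
  rw [c1, mul_one] at r1 r2
  refine ⟨k_eq_one.1 c1, vs, va, vd, r2, pa, pd, r1.symm, qa, qd, ?_⟩
  rw [c1] at hce
  calc p = v * (v⁻¹ * p * q⁻¹) * q := by group
    _ = v * q := by rw [← hce]; group

end Pool.Agent.H392.OC
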