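import Pool.Agent.H392.OC.A

/-!
# Sandwich systems of elements of odd order, additive pairs (adapted from `H325/B.lean`)
-/

set_option autoImplicit false
set_option linter.unusedSectionVars false

namespace Pool.Agent.H392.OC

open Pool.Agent.R669 (Sw.k Sw.cj)
open Pool.Agent.R669.Sw

universe u

variable {G : Type u} [Group G] {ν : ℕ} [hν : Fact (Odd ν)]

theorem k_inv_left {x y : G} (h : Commute x (k x y)) : k x⁻¹ y = (k x y)⁻¹ := by
  rw [k_eq x⁻¹, cj_inv, cj_eq, mul_inv_rev, inv_inv]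
  rw [← mul_assoc, (h.inv_right).eq, mul_inv_cancel_right]

theorem k_inv_right {x y : G} (h : Commute y (k x y)) : k x y⁻¹ = (k x y)⁻¹ := by
  have h1 : Commute y (k y x) := by
    rw [← k_inv]
    exact h.inv_right
  rw [← k_inv y⁻¹ x, k_inv_left h1, inv_inv, k_inv]

theorem cj_inv_right {x y : G} (h : Commute y (k x y)) : cj x y⁻¹ = x * (k x y)⁻¹ := by
  rw [cj_eq, k_inv_right h]

theorem k_mul_of {x y z : G} (h1 : Commute (k x z) y) : k (x * y) z = k x z * k y z := by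
  rw [k_mul_left, cj_of_comm h1]

theorem k_one_right (x : G) : k x 1 = 1 := by simp [k]

theorem k_one_left (x : G) : k 1 x = 1 := by simp [k]

/-- a sandwich system of elements with `x ^ ν = 1` -/
structure Sys (ν : ℕ) (X : Set G) : Prop where
  sand : Sand X
  cube : ∀ x ∈ X, x ^ ν = 1
  kc : ∀ x ∈ X, ∀ y ∈ X, k x y ∈ X
  inv : ∀ x ∈ X, x⁻¹ ∈ X

/-- the next stage -/
def Nx (X : Set G) : Set G := {g | g ∈ X ∨ ∃ x ∈ X, ∃ y ∈ X, g = k x y}

theorem good_k {X : Set G} (hX : Sand X) (h3 : ∀ x ∈ X, x ^ ν = 1) {a b : G} (ha : a ∈ X)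
    (hb : b ∈ X) : Good X (k a b) := by
  intro y hy
  have V := lemV hX h3 (hX.good ha) (h3 a ha) hb hy
  refine ⟨?_, V.pd.symm⟩
  exact (comm_k V.ps V.pa).symm

theorem Nx.sand {X : Set G} (hX : Sand X) (h3 : ∀ x ∈ X, x ^ ν = 1) : Sand (Nx X) := by
  refine ⟨?_, ?_⟩
  · rintro x (hx | ⟨a, ha, b, hb, rfl⟩) g
    · exact Or.inl (hX.cj x hx g)
    · exact Or.inr ⟨Sw.cj a g, hX.cj a ha g, Sw.cj b g, hX.cj b hb g, cj_k a b g⟩
  · rintro x (hx | ⟨a, ha, b, hb, rfl⟩) y (hy | ⟨c, hc, d, hd, rfl⟩)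
    · exact hX.two x hx y hy
    · exact (lemV hX h3 (hX.good hx) (h3 x hx) hc hd).vs.symm
    · exact ((good_k hX h3 ha hb) y hy).1
    · exact (lemV hX h3 (good_k hX h3 ha hb) (cube_k (h3 a ha) (hX.two a ha b hb)) hc hd).vs.symm

theorem Nx.cube {X : Set G} (hX : Sand X) (h3 : ∀ x ∈ X, x ^ ν = 1) : ∀ x ∈ Nx X, x ^ ν = 1 := by
  rintro x (hx | ⟨a, ha, b, hb, rfl⟩)
  · exact h3 x hx
  · exact cube_k (h3 a ha) (hX.two a ha b hb)

theorem Nx.inv {X : Set G} (hi : ∀ x ∈ X, x⁻¹ ∈ X) : ∀ x ∈ Nx X, x⁻¹ ∈ Nx X := by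
  rintro x (hx | ⟨a, ha, b, hb, rfl⟩)
  · exact Or.inl (hi x hx)
  · exact Or.inr ⟨b, hb, a, ha, k_inv a b⟩

/-- the stages -/
def St (X : Set G) : ℕ → Set G
  | 0 => X
  | n + 1 => Nx (St X n)

theorem St.all {X : Set G} (hX : Sand X) (h3 : ∀ x ∈ X, x ^ ν = 1) (hi : ∀ x ∈ X, x⁻¹ ∈ X)
    (n : ℕ) : Sand (St X n) ∧ (∀ x ∈ St X n, x ^ ν = 1) ∧ ∀ x ∈ St X n, x⁻¹ ∈ St X n := by
  induction n with
  | zero => exact ⟨hX, h3, hi⟩
  | succ n ih => exact ⟨Nx.sand ih.1 ih.2.1, Nx.cube ih.1 ih.2.1, Nx.inv ih.2.2⟩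

theorem St.mono (X : Set G) {m n : ℕ} (h : m ≤ n) : St X m ⊆ St X n := by
  induction n with
  | zero =>
    obtain rfl : m = 0 := by omega
    exact fun x hx => hx
  | succ n ih =>
    rcases Nat.lt_or_ge m (n + 1) with h1 | h1
    · exact fun x hx => Or.inl (ih (by omega) hx)
    · obtain rfl : m = n + 1 := by omega
      exact fun x hx => hx

/-- the system generated by a sandwich set -/
def Gen (X : Set G) : Set G := {g | ∃ n, g ∈ St X n}

theorem Gen.sub (X : Set G) : X ⊆ Gen X := fun x hx => ⟨0, hx⟩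

theorem Gen.sys {X : Set G} (hX : Sand X) (h3 : ∀ x ∈ X, x ^ ν = 1) (hi : ∀ x ∈ X, x⁻¹ ∈ X) :
    Sys ν (Gen X) := by
  refine ⟨⟨?_, ?_⟩, ?_, ?_, ?_⟩
  · rintro x ⟨n, hx⟩ g
    exact ⟨n, (St.all hX h3 hi n).1.cj x hx g⟩
  · rintro x ⟨m, hx⟩ y ⟨n, hy⟩
    exact (St.all hX h3 hi (max m n)).1.two x (St.mono X (le_max_left m n) hx) y
      (St.mono X (le_max_right m n) hy)
  · rintro x ⟨n, hx⟩
    exact (St.all hX h3 hi n).2.1 x hx
  · rintro x ⟨m, hx⟩ y ⟨n, hy⟩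
    exact ⟨max m n + 1, Or.inr ⟨x, St.mono X (le_max_left m n) hx, y,
      St.mono X (le_max_right m n) hy, rfl⟩⟩
  · rintro x ⟨n, hx⟩
    exact ⟨n, (St.all hX h3 hi n).2.2 x hx⟩

/-- induction for the generated system -/
theorem Gen.ind {X : Set G} {P : G → Prop} (h0 : ∀ x ∈ X, P x)
    (h1 : ∀ x ∈ Gen X, ∀ y ∈ Gen X, P x → P (k x y)) : ∀ x ∈ Gen X, P x := by
  rintro x ⟨n, hx⟩
  induction n generalizing x with
  | zero => exact h0 x hx
  | succ n ih =>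
    rcases hx with hx | ⟨a, ha, b, hb, rfl⟩
    · exact ih x hx
    · exact h1 a ⟨n, ha⟩ b ⟨n, hb⟩ (ih a ha)

section sys

variable {X : Set G}

theorem Sys.v (hX : Sys ν X) {s a d : G} (hs : s ∈ X) (ha : a ∈ X) (hd : d ∈ X) : Vc s a d :=
  lemV hX.sand hX.cube (hX.sand.good hs) (hX.cube s hs) ha hd

theorem Sys.cj (hX : Sys ν X) {x : G} (hx : x ∈ X) (g : G) : Sw.cj x g ∈ X := hX.sand.cj x hx g

theorem Sys.l (hX : Sys ν X) {x y : G} (hx : x ∈ X) (hy : y ∈ X) : Commute x (k x y) :=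
  hX.sand.two x hx y hy

theorem Sys.r (hX : Sys ν X) {x y : G} (hx : x ∈ X) (hy : y ∈ X) : Commute y (k x y) :=
  ((hX.sand.good hx) y hy).2

theorem Sys.k_inv_l (hX : Sys ν X) {x y : G} (hx : x ∈ X) (hy : y ∈ X) : k x⁻¹ y = (k x y)⁻¹ :=
  k_inv_left (hX.l hx hy)

theorem Sys.k_inv_r (hX : Sys ν X) {x y : G} (hx : x ∈ X) (hy : y ∈ X) : k x y⁻¹ = (k x y)⁻¹ :=
  k_inv_right (hX.r hx hy)

theorem Sys.cj_inv_r (hX : Sys ν X) {x y : G} (hx : x ∈ X) (hy : y ∈ X) :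
    Sw.cj x y⁻¹ = x * (k x y)⁻¹ := cj_inv_right (hX.r hx hy)

/-- additive pairs -/
structure Ad (X : Set G) (w g : G) : Prop where
  mw : w ∈ X
  mg : g ∈ X
  mp : w * g ∈ X
  mc : Commute w g

theorem Ad.symm {w g : G} (h : Ad X w g) : Ad X g w :=
  ⟨h.mg, h.mw, by rw [← h.mc.eq]; exact h.mp, h.mc.symm⟩

theorem Ad.cj (hX : Sys ν X) {w g : G} (h : Ad X w g) (x : G) : Ad X (Sw.cj w x) (Sw.cj g x) :=
  ⟨hX.cj h.mw x, hX.cj h.mg x, by rw [← cj_mul]; exact hX.cj h.mp x, comm_cj h.mc x⟩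

theorem Ad.inv (hX : Sys ν X) {w g : G} (h : Ad X w g) : Ad X w⁻¹ g⁻¹ :=
  ⟨hX.inv _ h.mw, hX.inv _ h.mg, by
    rw [← mul_inv_rev, ← h.mc.eq]; exact hX.inv _ h.mp, h.mc.inv_inv⟩

theorem Ad.of_cj (hX : Sys ν X) {x y : G} (hx : x ∈ X) (hy : y ∈ X) : Ad X x (k x y) :=
  ⟨hx, hX.kc x hx y hy, by rw [← cj_eq]; exact hX.cj hx y, hX.l hx hy⟩

theorem Ad.of_cj' (hX : Sys ν X) {x y : G} (hx : x ∈ X) (hy : y ∈ X) : Ad X x (k x y)⁻¹ :=
  ⟨hx, hX.inv _ (hX.kc x hx y hy), by rw [← hX.cj_inv_r hx hy]; exact hX.cj hx _,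
    (hX.l hx hy).inv_right⟩

/-- `[a, w g] = [a, w] [a, g]` and `[[a, w], g] = 1` -/
theorem Ad.main (hX : Sys ν X) {w g : G} (h : Ad X w g) {a : G} (ha : a ∈ X) :
    Commute (k a w) g ∧ Commute (k a g) w ∧ k a (w * g) = k a w * k a g := by
  have V := hX.v ha h.mw h.mg
  set t := k (k a w) g with ht
  set t' := k (k a g) w with ht'
  have e1 : t = t' := by
    have h1 : k w g = 1 := k_eq_one.2 h.mc
    have h2 := V.eq
    rw [h1, k_one_right, one_mul] at h2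
    exact h2
  have hα : Commute w (k a w) := hX.r ha h.mw
  have hγ : Commute g (k a g) := hX.r ha h.mg
  have htX : t ∈ X := hX.kc _ (hX.kc _ ha _ h.mw) _ h.mg
  have hP : Commute (w * g) (k a (w * g)) := hX.r ha h.mp
  have e2 : k a (w * g) = k a g * k a w * t := by
    rw [k_mul_right, cj_eq (k a w) g, mul_assoc]
  have tw : Commute t w := V.pa
  have tg : Commute t g := V.pd
  have tq : Commute t' (k a w) := comm_k V.qs V.qa
  have e3 : Sw.cj (k a (w * g)) (w * g) = k a (w * g) := cj_of_comm hP.symm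
  have e4 : Sw.cj (k a (w * g)) (w * g) = k a g * t' * (k a w * t) * t := by
    have a1 : Sw.cj (k a g * k a w * t) w = k a g * t' * k a w * t := by
      rw [cj_mul, cj_mul, cj_eq (k a g) w, ← ht', cj_of_comm hα.symm, cj_of_comm tw]
    have a2 : Sw.cj (k a g * t' * k a w * t) g = k a g * t' * (k a w * t) * t := by
      rw [cj_mul, cj_mul, cj_mul, cj_of_comm hγ.symm, cj_eq (k a w) g, ← ht, cj_of_comm tg,
        ← e1, cj_of_comm tg]
    rw [e2, ← cj_cj, a1, a2]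
  have t2 : t ^ 2 = 1 := by
    rw [e4, e2, ← e1, mul_assoc (k a g) t, mul_assoc (k a g), mul_assoc (k a g)] at e3
    have h5 := mul_left_cancel e3
    have h6 : Commute t (k a w) := by rw [e1]; exact tq
    have h7 : t * (k a w * t) * t = k a w * t * (t ^ 2) := by
      rw [← mul_assoc t, h6.eq, pow_two]; group
    rw [h7] at h5
    have h8 : k a w * t * t ^ 2 = k a w * t * 1 := by rw [h5, mul_one]
    exact mul_left_cancel h8
  have t1 : t = 1 := c_one (hX.cube t htX) t2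
  refine ⟨k_eq_one.1 t1, k_eq_one.1 (e1.symm.trans t1), ?_⟩
  rw [e2, t1, mul_one, V.ut.eq]

theorem Ad.k_right (hX : Sys ν X) {w g : G} (h : Ad X w g) {a : G} (ha : a ∈ X) :
    k a (w * g) = k a w * k a g := (h.main hX ha).2.2

theorem Ad.k_left (hX : Sys ν X) {w g : G} (h : Ad X w g) {a : G} (ha : a ∈ X) :
    k (w * g) a = k w a * k g a := by
  rw [← k_inv, h.k_right hX ha, mul_inv_rev, k_inv, k_inv]
  rw [← k_inv a w, ← k_inv a g]
  exact ((hX.v ha h.mw h.mg).ut.inv_inv).eq.symm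

theorem Ad.comm_r (hX : Sys ν X) {w g : G} (h : Ad X w g) {a : G} (ha : a ∈ X) :
    Commute (k a w) g := (h.main hX ha).1

theorem Ad.comm_l (hX : Sys ν X) {w g : G} (h : Ad X w g) {a : G} (ha : a ∈ X) :
    Commute (k w a) g := by
  rw [← k_inv]
  exact (h.comm_r hX ha).inv_left

/-- commutators with an additive pair -/
theorem Ad.kr (hX : Sys ν X) {w g : G} (h : Ad X w g) {a : G} (ha : a ∈ X) :
    Ad X (k a w) (k a g) :=
  ⟨hX.kc _ ha _ h.mw, hX.kc _ ha _ h.mg, by rw [← h.k_right hX ha]; exact hX.kc _ ha _ h.mp,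
    (hX.v ha h.mw h.mg).ut⟩

theorem Ad.kl (hX : Sys ν X) {w g : G} (h : Ad X w g) {a : G} (ha : a ∈ X) :
    Ad X (k w a) (k g a) := by
  refine ⟨hX.kc _ h.mw _ ha, hX.kc _ h.mg _ ha, by rw [← h.k_left hX ha]; exact hX.kc _ h.mp _ ha,
    ?_⟩
  rw [← k_inv a w, ← k_inv a g]
  exact (hX.v ha h.mw h.mg).ut.inv_inv

/-- commutators with a common entry commute -/
theorem Sys.kk (hX : Sys ν X) {s a d : G} (hs : s ∈ X) (ha : a ∈ X) (hd : d ∈ X) :
    Commute (k s a) (k s d) := (hX.v hs ha hd).ut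

theorem Sys.kk' (hX : Sys ν X) {s a d : G} (hs : s ∈ X) (ha : a ∈ X) (hd : d ∈ X) :
    Commute (k a s) (k d s) := by
  rw [← k_inv s a, ← k_inv s d]
  exact (hX.kk hs ha hd).inv_inv

end sys

end Pool.Agent.H392.OC
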