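import Pool.Graph.R_pool_sql_team_seeded_9f66d723.W5h59.Bu.Rad

/-!
# Locally finite groups with elements of `ν`-power order: extensions, products, the radical

`LF ν G`: the group `G` is locally finite and every element `x` satisfies `x ^ ν ^ n = 1` for some `n`.
Adapted from `H325/F.lean` and `W5h59/Bu/Rad.lean` (locally finite `3`-groups, `2`-groups).
-/

set_option autoImplicit false
set_option linter.all false

namespace Pool.Agent.H392.OC

open Pool.Agent.W5h59.Bu (LFn)

universe u v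

variable {ν : ℕ}

/-- every element has order dividing a power of `ν` -/
def Pn (ν : ℕ) (G : Type u) [Group G] : Prop := ∀ g : G, ∃ n : ℕ, g ^ ν ^ n = 1

theorem Pn.of_surjective {G : Type u} {H : Type v} [Group G] [Group H] (h : Pn ν G) (f : G →* H)
    (hf : Function.Surjective f) : Pn ν H := by
  intro y
  obtain ⟨x, rfl⟩ := hf y
  obtain ⟨n, hn⟩ := h x
  exact ⟨n, by rw [← map_pow, hn, map_one]⟩

theorem Pn.of_injective {G : Type u} {H : Type v} [Group G] [Group H] (h : Pn ν H) (f : G →* H)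
    (hf : Function.Injective f) : Pn ν G := by
  intro x
  obtain ⟨n, hn⟩ := h (f x)
  refine ⟨n, hf ?_⟩
  rw [map_pow, hn, map_one]

/-- locally finite groups in which every element has order dividing a power of `ν` -/
def LF (ν : ℕ) (G : Type u) [Group G] : Prop := LFn G ∧ Pn ν G

theorem LF.image {G : Type u} {H : Type v} [Group G] [Group H] (f : G →* H)
    (hf : Function.Surjective f) (h : LF ν G) : LF ν H := ⟨h.1.image f hf, h.2.of_surjective f hf⟩

theorem LF.sub {G : Type u} {H : Type v} [Group G] [Group H] (f : G →* H)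
    (hf : Function.Injective f) (h : LF ν H) : LF ν G := ⟨h.1.sub f hf, h.2.of_injective f hf⟩

theorem LF.mono {G : Type u} [Group G] {A B : Subgroup G} (h : A ≤ B) (hB : LF ν B) : LF ν A :=
  LF.sub (Subgroup.inclusion h) (Subgroup.inclusion_injective h) hB

theorem LF.ext {G : Type u} [Group G] (N : Subgroup G) [N.Normal] (hN : LF ν N)
    (hQ : LF ν (G ⧸ N)) : LF ν G := by
  refine ⟨hN.1.ext N hQ.1, ?_⟩
  intro g
  obtain ⟨m, hm⟩ := hQ.2 (g : G ⧸ N)
  have h1 : g ^ ν ^ m ∈ N := by
    rw [← QuotientGroup.eq_one_iff, QuotientGroup.mk_pow]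
    exact hm
  obtain ⟨l, hl⟩ := hN.2 ⟨g ^ ν ^ m, h1⟩
  refine ⟨m + l, ?_⟩
  rw [pow_add, pow_mul]
  have := congrArg Subtype.val hl
  simpa using this

theorem LF.sup {G : Type u} [Group G] {A B : Subgroup G} [A.Normal] [B.Normal] (hA : LF ν A)
    (hB : LF ν B) : LF ν ↥(A ⊔ B) := by
  have hn : (A.subgroupOf (A ⊔ B)).Normal := by infer_instance
  refine LF.ext (A.subgroupOf (A ⊔ B)) ?_ ?_
  · refine LF.sub (H := ↥A)
      { toFun := fun x => ⟨(x : ↥(A ⊔ B)), x.2⟩
        map_one' := rfl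
        map_mul' := fun _ _ => rfl } ?_ hA
    intro x y hxy
    have : ((x : ↥(A ⊔ B)) : G) = ((y : ↥(A ⊔ B)) : G) :=
      congrArg (fun z : ↥A => (z : G)) hxy
    exact Subtype.ext (Subtype.ext this)
  · refine LF.image (G := ↥B) ((QuotientGroup.mk' (A.subgroupOf (A ⊔ B))).comp
      (Subgroup.inclusion (le_sup_right : B ≤ A ⊔ B))) ?_ hB
    intro q
    obtain ⟨g, rfl⟩ := QuotientGroup.mk'_surjective _ q
    obtain ⟨g, hg⟩ := g
    obtain ⟨a, ha, b, hb, hab⟩ := (Subgroup.mem_sup_of_normal_left (s := A) (t := B)).mp hg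
    refine ⟨⟨b, hb⟩, ?_⟩
    simp only [MonoidHom.comp_apply]
    rw [QuotientGroup.mk'_apply, QuotientGroup.mk'_apply, QuotientGroup.eq]
    rw [Subgroup.mem_subgroupOf]
    simp only [Subgroup.coe_mul, Subgroup.coe_inv, Subgroup.coe_inclusion]
    rw [← hab]
    have := Subgroup.Normal.conj_mem inferInstance a ha b⁻¹
    simpa [mul_assoc] using this

theorem LF.bot {G : Type u} [Group G] : LF ν (⊥ : Subgroup G) := by
  refine ⟨fun S hS => inferInstance, fun g => ⟨0, ?_⟩⟩
  rw [pow_zero, pow_one]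
  exact Subsingleton.elim _ _

/-- the locally finite `ν`-radical -/
def rad (ν : ℕ) (G : Type u) [Group G] : Subgroup G where
  carrier := {g | ∃ M : Subgroup G, M.Normal ∧ LF ν M ∧ g ∈ M}
  one_mem' := ⟨⊥, inferInstance, LF.bot, Subgroup.mem_bot.2 rfl⟩
  mul_mem' := by
    rintro a b ⟨M, hM, h1, h2⟩ ⟨N, hN, h3, h4⟩
    haveI := hM
    haveI := hN
    exact ⟨M ⊔ N, inferInstance, LF.sup h1 h3, mul_mem (Subgroup.mem_sup_left h2)
      (Subgroup.mem_sup_right h4)⟩
  inv_mem' := by
    rintro a ⟨M, hM, h1, h2⟩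
    exact ⟨M, hM, h1, inv_mem h2⟩

theorem le_rad {G : Type u} [Group G] {M : Subgroup G} (hM : M.Normal) (h : LF ν M) :
    M ≤ rad ν G := fun g hg => ⟨M, hM, h, hg⟩

instance rad_normal (ν : ℕ) (G : Type u) [Group G] : (rad ν G).Normal where
  conj_mem := by
    rintro a ⟨M, hM, h1, h2⟩ g
    exact ⟨M, hM, h1, hM.conj_mem a h2 g⟩

theorem rad_cover {G : Type u} [Group G] {S : Set G} (hS : S.Finite) (h : S ⊆ rad ν G) :
    ∃ M : Subgroup G, M.Normal ∧ LF ν M ∧ S ⊆ M := by
  induction S, hS using Set.Finite.induction_on with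
  | empty => exact ⟨⊥, inferInstance, LF.bot, Set.empty_subset _⟩
  | @insert a S ha hS ih =>
    obtain ⟨M, hM, h1, h2⟩ := ih ((Set.subset_insert _ _).trans h)
    obtain ⟨N, hN, h3, h4⟩ := h (Set.mem_insert _ _)
    haveI := hM
    haveI := hN
    refine ⟨N ⊔ M, inferInstance, LF.sup h3 h1, ?_⟩
    rintro x (rfl | hx)
    · exact Subgroup.mem_sup_left h4
    · exact Subgroup.mem_sup_right (h2 hx)

theorem rad_lf (ν : ℕ) (G : Type u) [Group G] : LF ν (rad ν G) := by
  constructor
  · intro S hS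
    obtain ⟨M, hM, h1, h2⟩ := rad_cover (hS.image (rad ν G).subtype) (by
      rintro x ⟨y, hy, rfl⟩
      exact y.2)
    have h3 : Finite (Subgroup.closure ((rad ν G).subtype '' S)) := h1.1.fin (hS.image _) h2
    rw [← MonoidHom.map_closure] at h3
    have h4 : ((rad ν G).subtype '' (Subgroup.closure S : Set (rad ν G))).Finite := by
      rw [← Subgroup.coe_map]
      exact Set.toFinite _
    exact (Set.Finite.of_finite_image h4 Subtype.val_injective.injOn).to_subtype
  · rintro ⟨g, M, hM, h1, h2⟩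
    obtain ⟨m, hm⟩ := h1.2 ⟨g, h2⟩
    refine ⟨m, ?_⟩
    apply Subtype.ext
    have := congrArg Subtype.val hm
    simpa using this

/-- the quotient by the radical has trivial radical -/
theorem rad_quot (ν : ℕ) (G : Type u) [Group G] : rad ν (G ⧸ rad ν G) = ⊥ := by
  rw [eq_bot_iff]
  rintro x ⟨M, hM, h1, h2⟩
  obtain ⟨g, rfl⟩ := QuotientGroup.mk'_surjective _ x
  set N := M.comap (QuotientGroup.mk' (rad ν G)) with hN
  have hNn : N.Normal := hM.comap _
  have h3 : LF ν N := by
    haveI : ((rad ν G).subgroupOf N).Normal := inferInstance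
    refine LF.ext ((rad ν G).subgroupOf N) ?_ ?_
    · refine LF.sub (H := rad ν G)
        { toFun := fun x => ⟨((x : N) : G), Subgroup.mem_subgroupOf.1 x.2⟩
          map_one' := rfl
          map_mul' := fun _ _ => rfl } ?_ (rad_lf ν G)
      intro x y hxy
      exact Subtype.ext (Subtype.ext (congrArg (fun z : rad ν G => (z : G)) hxy))
    · obtain ⟨f, hf⟩ : ∃ f : N →* M, ∀ x : N, ((f x : M) : G ⧸ rad ν G) = ((x : G) : G ⧸ rad ν G) :=
        ⟨{ toFun := fun x => ⟨((x : G) : G ⧸ rad ν G), x.2⟩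
           map_one' := rfl
           map_mul' := fun _ _ => rfl }, fun _ => rfl⟩
      have hk : (rad ν G).subgroupOf N ≤ f.ker := by
        intro x hx
        rw [MonoidHom.mem_ker]
        apply Subtype.ext
        rw [hf]
        exact (QuotientGroup.eq_one_iff _).2 (Subgroup.mem_subgroupOf.1 hx)
      refine LF.sub (H := M) (QuotientGroup.lift _ f hk) ?_ h1
      rw [← MonoidHom.ker_eq_bot_iff, eq_bot_iff]
      intro q hq
      obtain ⟨x, rfl⟩ := QuotientGroup.mk'_surjective _ q
      rw [MonoidHom.mem_ker, QuotientGroup.mk'_apply, QuotientGroup.lift_mk] at hq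
      have h4 := congrArg (fun z : M => (z : G ⧸ rad ν G)) hq
      simp only [hf] at h4
      rw [Subgroup.mem_bot, QuotientGroup.mk'_apply, QuotientGroup.eq_one_iff,
        Subgroup.mem_subgroupOf]
      exact (QuotientGroup.eq_one_iff _).1 h4
  have h4 : g ∈ rad ν G := le_rad hNn h3 h2
  rw [Subgroup.mem_bot]
  exact (QuotientGroup.eq_one_iff _).2 h4


end Pool.Agent.H392.OC
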