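import Pool.Agent.H392.OC.B
import Pool.Agent.H325.K

/-!
# Finitely generated sandwich groups of elements of odd order are nilpotent (adapted from `H325/J.lean`)

For a sandwich system `X` we consider the additive functions on `X`, i.e. the functions with
`f (s ^ t) = f s + f [s, t]`.  On these functions the elements of `X` act quadratically, hence a finitely
generated subgroup acts nilpotently (Kostrikin–Zelmanov).  The functions `s ↦ [s, y]` are additive.
-/

set_option autoImplicit false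
set_option linter.unusedSectionVars false
set_option linter.unusedVariables false

open scoped commutatorElement

namespace Pool.Agent.H392.OC

open Pool.Agent.R669 (Sw.k Sw.cj)
open Pool.Agent.R669.Sw
open Pool.Agent.H325 (sandwich_ring mul_mem_span')

universe u v w

section act

variable {G : Type u} [Group G] {E : Type v} [Ring E] {m : ℕ}

/-- the span of the words of length at least `n` -/
def Iw (s : Fin m → E) (n : ℕ) : Submodule ℤ E :=
  Submodule.span ℤ {z | ∃ w : List (Fin m), n ≤ w.length ∧ z = (w.map s).prod}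

theorem Iw.mul {s : Fin m → E} {a b : ℕ} {x y : E} (hx : x ∈ Iw s a) (hy : y ∈ Iw s b) :
    x * y ∈ Iw s (a + b) := by
  refine mul_mem_span' ?_ hx hy
  rintro x ⟨v, h1, rfl⟩ y ⟨w, h2, rfl⟩
  exact ⟨v ++ w, by rw [List.length_append]; omega, by rw [List.map_append, List.prod_append]⟩

theorem Iw.anti {s : Fin m → E} {a b : ℕ} (h : a ≤ b) : Iw s b ≤ Iw s a := by
  apply Submodule.span_mono
  rintro x ⟨v, h1, rfl⟩
  exact ⟨v, h.trans h1, rfl⟩

theorem Iw.one (s : Fin m → E) : (1 : E) ∈ Iw s 0 :=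
  Submodule.subset_span ⟨[], le_refl _, rfl⟩

theorem Iw.gen (s : Fin m → E) (i : Fin m) : s i ∈ Iw s 1 :=
  Submodule.subset_span ⟨[i], le_refl _, by simp⟩

theorem ring1 (a b : E) : a * b - 1 = (a - 1) * b + (b - 1) := by
  rw [sub_mul, one_mul]; abel

theorem ring2 (a : E) : a * (1 - (a - 1)) = 1 - (a - 1) * (a - 1) := by noncomm_ring

theorem ring3 {a b a' b' : E} (ha : a * a' = 1) (hb : b * b' = 1) :
    a * b * a' * b' - 1 = ((a - 1) * (b - 1) - (b - 1) * (a - 1)) * (a' * b') := by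
  have h1 : ((a - 1) * (b - 1) - (b - 1) * (a - 1)) * (a' * b') =
      a * b * a' * b' - b * (a * a') * b' := by noncomm_ring
  rw [h1, ha, mul_one, hb]

theorem ring4 {X Y : E} (hx : X * X = 0) (hy : Y * Y = 0) (hxy : X * Y * X = 0)
    (hyx : Y * X * Y = 0) : (1 - X) * (1 - Y) * (X + 1) * (Y + 1) - 1 = X * Y - Y * X := by
  have h1 : (1 - X) * (1 - Y) * (X + 1) * (Y + 1) - 1 =
      X * Y - Y * X - X * X - Y * Y + X * Y * X - Y * X * Y + X * (Y * Y) - (X * X) * Y +
      (X * Y * X) * Y := by noncomm_ring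
  rw [h1, hx, hy, hxy, hyx]
  simp

theorem inv_of_sq (P : G →* E) {x : G} (h : (P x - 1) * (P x - 1) = 0) :
    P x⁻¹ = 1 - (P x - 1) := by
  have h1 : P x⁻¹ * P x = 1 := by rw [← map_mul, inv_mul_cancel, map_one]
  have h2 := ring2 (P x)
  rw [h, sub_zero] at h2
  calc P x⁻¹ = P x⁻¹ * (P x * (1 - (P x - 1))) := by rw [h2, mul_one]
    _ = 1 - (P x - 1) := by rw [← mul_assoc, h1, one_mul]

theorem act1 (P : G →* E) (x : Fin m → G) (hsq : ∀ i, (P (x i) - 1) * (P (x i) - 1) = 0) :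
    ∀ g ∈ Subgroup.closure (Set.range x), P g ∈ Iw (fun i => P (x i) - 1) 0 ∧
      P g⁻¹ ∈ Iw (fun i => P (x i) - 1) 0 ∧ P g - 1 ∈ Iw (fun i => P (x i) - 1) 1 := by
  intro g hg
  set s : Fin m → E := fun i => P (x i) - 1 with hs
  induction hg using Subgroup.closure_induction with
  | mem g hg =>
    obtain ⟨i, rfl⟩ := hg
    have h1 : s i ∈ Iw s 1 := Iw.gen s i
    have h0 : s i ∈ Iw s 0 := Iw.anti (by omega) h1
    refine ⟨?_, ?_, h1⟩
    · have := Submodule.add_mem _ h0 (Iw.one s)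
      simpa [hs] using this
    · rw [inv_of_sq P (hsq i)]
      exact Submodule.sub_mem _ (Iw.one s) h0
  | one =>
    refine ⟨?_, ?_, ?_⟩
    · rw [map_one]; exact Iw.one s
    · rw [inv_one, map_one]; exact Iw.one s
    · rw [map_one, sub_self]; exact Submodule.zero_mem _
  | mul g h _ _ hg hh =>
    obtain ⟨g1, g2, g3⟩ := hg
    obtain ⟨h1, h2, h3⟩ := hh
    refine ⟨?_, ?_, ?_⟩
    · rw [map_mul]; exact Iw.mul (a := 0) (b := 0) g1 h1
    · rw [mul_inv_rev, map_mul]; exact Iw.mul (a := 0) (b := 0) h2 g2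
    · have e : P (g * h) - 1 = (P g - 1) * P h + (P h - 1) := by rw [map_mul]; exact ring1 _ _
      rw [e]
      exact Submodule.add_mem _ (Iw.mul (a := 1) (b := 0) g3 h1) h3
  | inv g _ hg =>
    obtain ⟨g1, g2, g3⟩ := hg
    refine ⟨g2, by rw [inv_inv]; exact g1, ?_⟩
    have e : P g⁻¹ - 1 = -((P g - 1) * P g⁻¹) := by
      have : P g * P g⁻¹ = 1 := by rw [← map_mul, mul_inv_cancel, map_one]
      rw [sub_mul, this, one_mul, neg_sub]
    rw [e]
    exact Submodule.neg_mem _ (Iw.mul (a := 1) (b := 0) g3 g2)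

theorem act2 (P : G →* E) (x : Fin m → G) (hsq : ∀ i, (P (x i) - 1) * (P (x i) - 1) = 0) (n : ℕ) :
    ∀ g ∈ (Subgroup.closure (Set.range x)).lowerCentralSeries n,
      P g - 1 ∈ Iw (fun i => P (x i) - 1) (n + 1) := by
  induction n with
  | zero =>
    intro g hg
    exact (act1 P x hsq g hg).2.2
  | succ n ih =>
    intro g hg
    have hle := Subgroup.lowerCentralSeries_le_self (Subgroup.closure (Set.range x)) (n + 1)
    rw [Subgroup.mem_lowerCentralSeries_succ_iff] at hg
    induction hg using Subgroup.closure_induction with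
    | mem g hg =>
      obtain ⟨a, ha, b, hb, rfl⟩ := hg
      have ha' := Subgroup.lowerCentralSeries_le_self _ n ha
      have a1 := act1 P x hsq a ha'
      have b1 := act1 P x hsq b hb
      have a2 := ih a ha
      have e : P ⁅a, b⁆ - 1 = ((P a - 1) * (P b - 1) - (P b - 1) * (P a - 1)) * (P a⁻¹ * P b⁻¹) := by
        have ea : P a * P a⁻¹ = 1 := by rw [← map_mul, mul_inv_cancel, map_one]
        have eb : P b * P b⁻¹ = 1 := by rw [← map_mul, mul_inv_cancel, map_one]
        rw [commutatorElement_def, map_mul, map_mul, map_mul]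
        exact ring3 ea eb
      rw [e]
      refine Iw.mul (a := n + 1 + 1) (b := 0) (Submodule.sub_mem _ (Iw.mul (a := n + 1) (b := 1) a2 b1.2.2) ?_)
        (Iw.mul (a := 0) (b := 0) a1.2.1 b1.2.1)
      have := Iw.mul (a := 1) (b := n + 1) b1.2.2 a2
      rwa [show 1 + (n + 1) = n + 1 + 1 by omega] at this
    | one => rw [map_one, sub_self]; exact Submodule.zero_mem _
    | mul g h hg hh ihg ihh =>
      have e : P (g * h) - 1 = (P g - 1) * P h + (P h - 1) := by rw [map_mul]; exact ring1 _ _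
      rw [e]
      have h1 := act1 P x hsq h (hle (by rw [Subgroup.mem_lowerCentralSeries_succ_iff]; exact hh))
      exact Submodule.add_mem _ (Iw.mul (a := n + 1 + 1) (b := 0) ihg h1.1) ihh
    | inv g hg ihg =>
      have e : P g⁻¹ - 1 = -((P g - 1) * P g⁻¹) := by
        have : P g * P g⁻¹ = 1 := by rw [← map_mul, mul_inv_cancel, map_one]
        rw [sub_mul, this, one_mul, neg_sub]
      rw [e]
      have h1 := act1 P x hsq g (hle (by rw [Subgroup.mem_lowerCentralSeries_succ_iff]; exact hg))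
      exact Submodule.neg_mem _ (Iw.mul (a := n + 1 + 1) (b := 0) ihg h1.2.1)

/-- quadratic action of a commutator -/
theorem quad_k (P : G →* E) {x y : G} (hx : (P x - 1) * (P x - 1) = 0)
    (hy : (P y - 1) * (P y - 1) = 0) (hxy : (P x - 1) * (P y - 1) * (P x - 1) = 0)
    (hyx : (P y - 1) * (P x - 1) * (P y - 1) = 0) :
    P (k x y) - 1 = (P x - 1) * (P y - 1) - (P y - 1) * (P x - 1) := by
  have e : P (k x y) = P x⁻¹ * P y⁻¹ * P x * P y := by
    unfold k
    rw [map_mul, map_mul, map_mul]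
  rw [e, inv_of_sq P hx, inv_of_sq P hy]
  have ex : P x = (P x - 1) + 1 := (sub_add_cancel _ _).symm
  have ey : P y = (P y - 1) + 1 := (sub_add_cancel _ _).symm
  have h := ring4 hx hy hxy hyx
  rw [← ex, ← ey] at h
  exact h

end act

section fns

variable {G : Type u} [Group G] {X : Set G} {ν : ℕ} [hν : Fact (Odd ν)] (hX : Sys ν X) {A : Type w}
  [AddCommGroup A]

/-- conjugation on the system -/
def cX (s : X) (g : G) : X := ⟨Sw.cj s.1 g, hX.cj s.2 g⟩

/-- commutator on the system -/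
def kX (s t : X) : X := ⟨k s.1 t.1, hX.kc _ s.2 _ t.2⟩

theorem cX_mul (s : X) (g h : G) : cX hX (cX hX s g) h = cX hX s (g * h) :=
  Subtype.ext (cj_cj _ _ _)

theorem cX_one (s : X) : cX hX s 1 = s := Subtype.ext (cj_one _)

theorem kX_cX (s t : X) (g : G) : kX hX (cX hX s g) (cX hX t g) = cX hX (kX hX s t) g :=
  Subtype.ext (cj_k _ _ _).symm

/-- additive functions on a system -/
def Wf (A : Type w) [AddCommGroup A] : AddSubgroup (X → A) where
  carrier := {f | ∀ s t : X, f (cX hX s t.1) = f s + f (kX hX s t)}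
  zero_mem' := by intro s t; simp
  add_mem' := by
    intro f g hf hg s t
    show f (cX hX s t.1) + g (cX hX s t.1) = (f s + g s) + (f (kX hX s t) + g (kX hX s t))
    rw [hf s t, hg s t]; abel
  neg_mem' := by
    intro f hf s t
    show -f (cX hX s t.1) = -f s + -f (kX hX s t)
    rw [hf s t]; abel

theorem Wf.mem_cj {f : X → A} (hf : f ∈ Wf hX A) (g : G) :
    (fun s => f (cX hX s g)) ∈ Wf hX A := by
  intro s t
  show f (cX hX (cX hX s t.1) g) = f (cX hX s g) + f (cX hX (kX hX s t) g)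
  have e : cX hX (cX hX s t.1) g = cX hX (cX hX s g) (cX hX t g).1 := by
    apply Subtype.ext
    show Sw.cj (Sw.cj s.1 t.1) g = Sw.cj (Sw.cj s.1 g) (Sw.cj t.1 g)
    unfold Sw.cj; group
  rw [e, hf, kX_cX]

/-- the action -/
def Pf (g : G) : AddMonoid.End (Wf hX A) where
  toFun f := ⟨fun s => f.1 (cX hX s g), Wf.mem_cj hX f.2 g⟩
  map_zero' := rfl
  map_add' _ _ := rfl

theorem Pf_apply (g : G) (f : Wf hX A) (s : X) : (Pf hX g f).1 s = f.1 (cX hX s g) := rfl

/-- the action, as a homomorphism -/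
def Pw : G →* AddMonoid.End (Wf hX A) where
  toFun g := Pf hX g
  map_one' := by
    ext f s
    show f.1 (cX hX s 1) = f.1 s
    rw [cX_one]
  map_mul' g h := by
    ext f s
    show f.1 (cX hX s (g * h)) = f.1 (cX hX (cX hX s g) h)
    rw [cX_mul]

theorem Pw_apply (g : G) (f : Wf hX A) (s : X) : (Pw hX g f).1 s = f.1 (cX hX s g) := rfl

theorem D_apply (t : X) (f : Wf hX A) (s : X) :
    ((Pw hX t.1 - 1 : AddMonoid.End (Wf hX A)) f).1 s = f.1 (kX hX s t) := by
  show f.1 (cX hX s t.1) - f.1 s = _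
  rw [f.2 s t]; abel

theorem f_one (f : Wf hX A) (e : X) (he : e.1 = 1) : f.1 e = 0 := by
  have h := f.2 e e
  have e1 : cX hX e e.1 = e := by
    apply Subtype.ext
    show Sw.cj e.1 e.1 = e.1
    rw [he, cj_one]
  have e2 : kX hX e e = e := by
    apply Subtype.ext
    show k e.1 e.1 = e.1
    rw [he, k_one_left]
  rw [e1, e2] at h
  have h2 := h.symm
  rwa [add_eq_left] at h2

theorem D_sq (t : X) :
    (Pw hX t.1 - 1 : AddMonoid.End (Wf hX A)) * (Pw hX t.1 - 1) = 0 := by
  ext f s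
  show ((Pw hX t.1 - 1 : AddMonoid.End (Wf hX A))
    ((Pw hX t.1 - 1 : AddMonoid.End (Wf hX A)) f)).1 s = 0
  rw [D_apply, D_apply]
  apply f_one
  exact k_eq_one.2 (hX.r s.2 t.2).symm

theorem D_sand (t u : X) :
    (Pw hX t.1 - 1 : AddMonoid.End (Wf hX A)) * (Pw hX u.1 - 1) * (Pw hX t.1 - 1) = 0 := by
  ext f s
  show ((Pw hX t.1 - 1 : AddMonoid.End (Wf hX A)) ((Pw hX u.1 - 1 : AddMonoid.End (Wf hX A))
    ((Pw hX t.1 - 1 : AddMonoid.End (Wf hX A)) f))).1 s = 0
  rw [D_apply, D_apply, D_apply]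
  apply f_one
  exact k_eq_one.2 (hX.v s.2 t.2 u.2).pa

/-- the operators of the system -/
def Ds (A : Type w) [AddCommGroup A] (t : X) : AddMonoid.End (Wf hX A) := Pw hX t.1 - 1

theorem Ds_ring {m : ℕ} (x : Fin m → X) :
    ∃ N : ℕ, ∀ w : List (Fin m), N ≤ w.length → (w.map fun i => Ds hX A (x i)).prod = 0 := by
  refine sandwich_ring (Set.range (Ds hX A)) ?_ ?_ ?_ m (fun i => Ds hX A (x i))
    (fun i => ⟨x i, rfl⟩)
  · rintro _ ⟨s, rfl⟩ _ ⟨t, rfl⟩
    exact ⟨kX hX s t, quad_k (Pw hX (A := A)) (D_sq hX s) (D_sq hX t) (D_sand hX s t) (D_sand hX t s)⟩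
  · rintro _ ⟨s, rfl⟩
    exact D_sq hX s
  · rintro _ ⟨s, rfl⟩ _ ⟨t, rfl⟩
    exact D_sand hX s t

/-- a finitely generated group acts nilpotently on the additive functions -/
theorem act_nil {m : ℕ} (x : Fin m → X) : ∃ n : ℕ,
    ∀ g ∈ (Subgroup.closure (Set.range fun i => (x i).1)).lowerCentralSeries n,
      ∀ f : Wf hX A, ∀ s : X, f.1 (cX hX s g) = f.1 s := by
  obtain ⟨N, hN⟩ := Ds_ring hX (A := A) x
  refine ⟨N, ?_⟩
  intro g hg f s
  have h1 := act2 (Pw hX (A := A)) (fun i => (x i).1) (fun i => D_sq hX (x i)) N g hg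
  have h2 : Iw (fun i => Ds hX A (x i)) (N + 1) = ⊥ := by
    rw [Iw, Submodule.span_eq_bot]
    rintro z ⟨w, hw, rfl⟩
    exact hN w (by omega)
  have h3 : Pw hX g - 1 ∈ Iw (fun i => Ds hX A (x i)) (N + 1) := h1
  rw [h2, Submodule.mem_bot, sub_eq_zero] at h3
  rw [← Pw_apply, h3]
  rfl

end fns

section main

variable {G : Type u} [Group G] {X : Set G} {ν : ℕ} [hν : Fact (Odd ν)]

/-- the commutators with `y` -/
def Ks (X : Set G) (y : G) : Set G := {g | ∃ s ∈ X, g = k s y}

theorem Ks.comm (hX : Sys ν X) {y : G} (hy : y ∈ X) : ∀ a ∈ Ks X y, ∀ b ∈ Ks X y, a * b = b * a := by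
  rintro _ ⟨s, hs, rfl⟩ _ ⟨t, ht, rfl⟩
  exact (hX.kk' hy hs ht).eq

theorem key (hX : Sys ν X) {m : ℕ} (x : Fin m → X) : ∃ n : ℕ,
    ∀ g ∈ (Subgroup.closure (Set.range fun i => (x i).1)).lowerCentralSeries n,
      ∀ s ∈ X, ∀ y ∈ X, k (Sw.cj s g) y = k s y := by
  have hc : ∀ y : X, IsMulCommutative (Subgroup.closure (Ks X y.1)) :=
    fun y => Subgroup.isMulCommutative_closure (Ks.comm hX y.2)
  let inst : ∀ y : X, CommGroup (Subgroup.closure (Ks X y.1)) := fun y =>
    { (inferInstance : Group (Subgroup.closure (Ks X y.1))) with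
      mul_comm := fun a b => (hc y).is_comm.comm a b }
  obtain ⟨n, hn⟩ := act_nil hX (A := ∀ y : X, Additive (Subgroup.closure (Ks X y.1))) x
  refine ⟨n, ?_⟩
  intro g hg s hs y hy
  let φ : Wf hX (∀ y : X, Additive (Subgroup.closure (Ks X y.1))) :=
    ⟨fun s y => Additive.ofMul ⟨k s.1 y.1, Subgroup.subset_closure ⟨s.1, s.2, rfl⟩⟩, by
      intro s t
      funext y
      apply Additive.toMul.injective
      apply Subtype.ext
      show k (Sw.cj s.1 t.1) y.1 = k s.1 y.1 * k (k s.1 t.1) y.1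
      rw [cj_eq s.1 t.1, (Ad.of_cj hX s.2 t.2).k_left hX y.2]⟩
  have h1 := congrFun (hn g hg φ ⟨s, hs⟩) ⟨y, hy⟩
  exact congrArg Subtype.val (Additive.ofMul.injective h1)

theorem comm_of_key {s g : G} (hs : s ∈ X) (h : ∀ y ∈ X, k (Sw.cj s g) y = k s y) :
    ∀ y ∈ X, Commute (k s g) y := by
  have h1 : ∀ y ∈ X, Commute (Sw.cj s g * s⁻¹) y := by
    intro y hy
    have h2 := h y hy
    have h3 : Sw.cj y⁻¹ (Sw.cj s g) = Sw.cj y⁻¹ s := by
      have h4 : k (Sw.cj s g) y * y⁻¹ = k s y * y⁻¹ := by rw [h2]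
      unfold k at h4
      rw [mul_inv_cancel_right, mul_inv_cancel_right] at h4
      exact h4
    have h5 : Sw.cj y⁻¹ (Sw.cj s g * s⁻¹) = y⁻¹ := by
      rw [← cj_cj, h3, cj_cj, mul_inv_cancel, cj_one]
    have h6 : Commute y⁻¹ (Sw.cj s g * s⁻¹) := comm_of_cj h5
    exact (Commute.inv_left_iff.1 h6).symm
  have h2 := h1 s hs
  have e : k s g = Sw.cj s g * s⁻¹ := by
    have h3 : k s g = s⁻¹ * (Sw.cj s g * s⁻¹) * s := by unfold k Sw.cj; group
    rw [h3, mul_assoc, h2.eq, inv_mul_cancel_left]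
  rw [e]
  exact h1

/-- **finitely generated sandwich groups of elements of odd order are nilpotent** -/
theorem nilp (hX : Sys ν X) {m : ℕ} (x : Fin m → X) : ∃ n : ℕ,
    (Subgroup.closure (Set.range fun i => (x i).1)).lowerCentralSeries n = ⊥ := by
  obtain ⟨n, hn⟩ := key hX x
  set M := Subgroup.closure (Set.range fun i => (x i).1) with hM
  have hMX : ∀ c : G, (∀ y ∈ X, Commute c y) → ∀ z ∈ M, Commute c z := by
    intro c hc z hz
    rw [hM] at hz
    induction hz using Subgroup.closure_induction with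
    | mem z hz =>
      obtain ⟨i, rfl⟩ := hz
      exact hc _ (x i).2
    | one => exact Commute.one_right c
    | mul a b _ _ ha hb => exact ha.mul_right hb
    | inv a _ ha => exact ha.inv_right
  have h1 : ∀ g ∈ M.lowerCentralSeries n, ∀ h ∈ M, ∀ z ∈ M, Commute (k h g) z := by
    intro g hg h hh
    have hh' := hh
    rw [hM] at hh
    induction hh using Subgroup.closure_induction with
    | mem h hh =>
      obtain ⟨i, rfl⟩ := hh
      exact hMX _ (comm_of_key (x i).2 (fun y hy => hn g hg _ (x i).2 y hy))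
    | one =>
      intro z _
      rw [k_one_left]
      exact Commute.one_left z
    | mul a b ha hb iha ihb =>
      intro z hz
      have ha2 := iha ha
      have hb2 := ihb hb
      have e : k (a * b) g = k a g * k b g := by
        rw [k_mul_left, cj_of_comm (ha2 b hb)]
      rw [e]
      exact (ha2 z hz).mul_left (hb2 z hz)
    | inv a ha iha =>
      intro z hz
      have ha2 := iha ha
      have e : k a⁻¹ g = (k a g)⁻¹ := by
        have h3 : k a⁻¹ g = a * (k a g)⁻¹ * a⁻¹ := by unfold k; group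
        rw [h3, ((ha2 a ha).inv_left).eq.symm, mul_inv_cancel_right]
      rw [e]
      exact (ha2 z hz).inv_left
  refine ⟨n + 2, ?_⟩
  rw [Subgroup.lowerCentralSeries_succ, Subgroup.commutator_eq_bot_iff_le_centralizer,
    Subgroup.lowerCentralSeries_succ, Subgroup.commutator_le]
  intro g hg h hh
  rw [Subgroup.mem_centralizer_iff]
  intro z hz
  have e : ⁅g, h⁆ = (k h⁻¹ g⁻¹)⁻¹ := by
    rw [commutatorElement_def]; unfold k; group
  rw [e]
  exact ((h1 g⁻¹ (inv_mem hg) h⁻¹ (inv_mem hh) z hz).inv_left).eq.symm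

end main

end Pool.Agent.H392.OC
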