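import Pool.Agent.H392.OC.S

/-!
# Iterated Engel words and the lower central series
-/

set_option autoImplicit false
set_option linter.all false

open scoped commutatorElement

namespace Pool.Agent.H392.OC

open Pool.Agent.R669 (Sw.k Sw.cj)
open Pool.Agent.R669.Sw
open Pool.Agent.W5h59.Bu (LFn)

universe u v

/-- the three subgroups lemma modulo a normal subgroup -/
theorem three_sub {N : Type u} [Group N] (K H₁ H₂ H₃ : Subgroup N) [hK : K.Normal]
    (h1 : ⁅⁅H₂, H₃⁆, H₁⁆ ≤ K) (h2 : ⁅⁅H₃, H₁⁆, H₂⁆ ≤ K) : ⁅⁅H₁, H₂⁆, H₃⁆ ≤ K := by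
  have key : ∀ A B C : Subgroup N, ⁅⁅A, B⁆, C⁆ ≤ K ↔
      ⁅⁅A.map (QuotientGroup.mk' K), B.map (QuotientGroup.mk' K)⁆, C.map (QuotientGroup.mk' K)⁆ = ⊥ := by
    intro A B C
    rw [← Subgroup.map_commutator, ← Subgroup.map_commutator, Subgroup.map_eq_bot_iff,
      QuotientGroup.ker_mk']
  rw [key] at h1 h2 ⊢
  exact Subgroup.commutator_commutator_eq_bot_of_rotate h1 h2

theorem comm_lcs (N : Type u) [Group N] (j : ℕ) : ∀ i : ℕ,
    ⁅Subgroup.lowerCentralSeries (⊤ : Subgroup N) i, Subgroup.lowerCentralSeries (⊤ : Subgroup N) j⁆ ≤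
      Subgroup.lowerCentralSeries (⊤ : Subgroup N) (i + j + 1) := by
  induction j with
  | zero =>
    intro i
    rw [Nat.add_zero, Subgroup.lowerCentralSeries_succ, Subgroup.lowerCentralSeries_zero]
  | succ j ih =>
    intro i
    rw [Subgroup.lowerCentralSeries_succ (⊤ : Subgroup N) j, Subgroup.commutator_comm]
    apply three_sub
    · rw [Subgroup.commutator_comm ⊤, ← Subgroup.lowerCentralSeries_succ]
      refine (ih (i + 1)).trans (le_of_eq ?_)
      congr 1
      omega
    · refine (Subgroup.commutator_mono (ih i) le_rfl).trans (le_of_eq ?_)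
      rw [← Subgroup.lowerCentralSeries_succ]
      congr 1

theorem k_lcs {N : Type u} [Group N] {i j : ℕ} {x y : N}
    (hx : x ∈ (⊤ : Subgroup N).lowerCentralSeries i) (hy : y ∈ (⊤ : Subgroup N).lowerCentralSeries j) :
    k x y ∈ (⊤ : Subgroup N).lowerCentralSeries (i + j + 1) := by
  have e : k x y = ⁅x⁻¹, y⁻¹⁆ := by
    rw [commutatorElement_def]; unfold k; group
  rw [e]
  exact comm_lcs N j i (Subgroup.commutator_mem_commutator (inv_mem hx) (inv_mem hy))

theorem E3_lcs {N : Type u} [Group N] {j : ℕ} {g a : N}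
    (ha : a ∈ (⊤ : Subgroup N).lowerCentralSeries j) :
    E3 g a ∈ (⊤ : Subgroup N).lowerCentralSeries (3 * j + 3) := by
  have h0 : g ∈ (⊤ : Subgroup N).lowerCentralSeries 0 := Subgroup.mem_top g
  have h1 := k_lcs (k_lcs (k_lcs h0 ha) ha) ha
  rw [show 0 + j + 1 + j + 1 + j + 1 = 3 * j + 3 by ring] at h1
  exact h1

theorem foldl_lcs {N : Type u} [Group N] (l : List N) : ∀ (j M : ℕ) (a : N),
    2 * M + 3 = 3 ^ l.length * (2 * j + 3) → a ∈ (⊤ : Subgroup N).lowerCentralSeries j →
    l.foldl (fun a y => E3 y a) a ∈ (⊤ : Subgroup N).lowerCentralSeries M := by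
  induction l with
  | nil =>
    intro j M a h ha
    have : M = j := by simp at h; omega
    rw [this]
    exact ha
  | cons y l ih =>
    intro j M a h ha
    rw [List.foldl_cons]
    refine ih (3 * j + 3) M (E3 y a) ?_ (E3_lcs ha)
    rw [h, List.length_cons, pow_succ]
    ring

theorem foldl_map' {H : Type u} {G : Type v} [Group H] [Group G] (φ : H →* G) (l : List H) :
    ∀ a : H, φ (l.foldl (fun a y => E3 y a) a) = (l.map φ).foldl (fun a y => E3 y a) (φ a) := by
  induction l with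
  | nil => intro a; rfl
  | cons y l ih =>
    intro a
    rw [List.foldl_cons, List.map_cons, List.foldl_cons, ih, E3_map]

theorem lift_list {G : Type u} [Group G] {H : Subgroup G} (l : List G) (h : ∀ z ∈ l, z ∈ H) :
    ∃ l' : List H, l'.map H.subtype = l := by
  induction l with
  | nil => exact ⟨[], rfl⟩
  | cons z l ih =>
    obtain ⟨l', h'⟩ := ih (fun w hw => h w (List.mem_cons_of_mem _ hw))
    exact ⟨⟨z, h z (List.mem_cons_self ..)⟩ :: l', by rw [List.map_cons, h']; rfl⟩

/-- the iterated Engel word vanishes if the class is small -/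
theorem foldl_one {G : Type u} [Group G] {d : ℕ} (hd : 1 ≤ d)
    (h : ∀ x : Fin d → G, (Subgroup.closure (Set.range x)).lowerCentralSeries ((3 ^ d - 3) / 2) = ⊥)
    (x : G) (l : List G) (hl : l.length = d - 1) : l.foldl (fun a y => E3 y a) x = 1 := by
  have hlen : d = (x :: l).length := by rw [List.length_cons, hl]; omega
  set y : Fin d → G := fun i => (x :: l).get (Fin.cast hlen i) with hy
  set H := Subgroup.closure (Set.range y) with hH
  have hmem : ∀ z ∈ x :: l, z ∈ H := by
    intro z hz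
    obtain ⟨i, hi⟩ := List.mem_iff_get.1 hz
    apply Subgroup.subset_closure
    exact ⟨Fin.cast hlen.symm i, by rw [hy]; exact hi⟩
  have hxH : x ∈ H := hmem x (List.mem_cons_self ..)
  have hlH : ∀ z ∈ l, z ∈ H := fun z hz => hmem z (List.mem_cons_of_mem _ hz)
  obtain ⟨l', hl'⟩ := lift_list l hlH
  have hlen' : l'.length = d - 1 := by rw [← hl, ← hl', List.length_map]
  have h1 := foldl_lcs l' 0 ((3 ^ d - 3) / 2) ⟨x, hxH⟩ (by
    rw [hlen']
    obtain ⟨e, rfl⟩ : ∃ e, d = e + 1 := ⟨d - 1, by omega⟩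
    have h2 : (3 ^ (e + 1) : ℕ) = 3 ^ e * 3 := pow_succ 3 e
    have h3 : 1 ≤ 3 ^ e := Nat.one_le_pow _ _ (by norm_num)
    have h4 : (3 ^ e) % 2 = 1 := by
      rw [Nat.pow_mod]; simp
    rw [Nat.add_sub_cancel, h2]
    omega) (Subgroup.mem_top _)
  have h2 : (⊤ : Subgroup H).lowerCentralSeries ((3 ^ d - 3) / 2) = ⊥ := by
    have h3 := h y
    rw [← hH, ← Subgroup.top_subtype_lowerCentralSeries] at h3
    have h4 := (Subgroup.map_eq_bot_iff _).1 h3
    rw [Subgroup.ker_subtype] at h4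
    exact le_bot_iff.1 h4
  rw [h2, Subgroup.mem_bot] at h1
  have h5 := foldl_map' H.subtype l' ⟨x, hxH⟩
  rw [h1, hl', map_one] at h5
  exact h5.symm

end Pool.Agent.H392.OC
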