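import Pool.Agent.H392.OC.S

/-!
# Locally finite groups all of whose finite subgroups are soluble: the radical
-/

set_option autoImplicit false
set_option linter.all false

namespace Pool.Agent.H392.OC

open Pool.Agent.W5h59.Bu (LFn)

universe u v

/-- every finite subgroup is soluble -/
def Fs (G : Type u) [Group G] : Prop := ∀ H : Subgroup G, Finite H → Group.IsSolvable H

/-- locally finite groups in which every finite subgroup is soluble -/
def LS (G : Type u) [Group G] : Prop := LFn G ∧ Fs G

theorem LS.image {G : Type u} {H : Type v} [Group G] [Group H] (f : G →* H)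
    (hf : Function.Surjective f) (h : LS G) : LS H := by
  refine ⟨h.1.image f hf, ?_⟩
  intro K hK
  have h1 : (Function.surjInv hf '' (K : Set H)).Finite := (Set.toFinite (K : Set H)).image _
  have h2 : Finite (Subgroup.closure (Function.surjInv hf '' (K : Set H))) := h.1 _ h1
  have h3 : Group.IsSolvable (Subgroup.closure (Function.surjInv hf '' (K : Set H))) := h.2 _ h2
  have h4 : (Subgroup.closure (Function.surjInv hf '' (K : Set H))).map f = K := by
    rw [MonoidHom.map_closure, ← Set.image_comp]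
    have : (f : G → H) ∘ Function.surjInv hf = id := by
      funext x
      exact Function.surjInv_eq hf x
    rw [this, Set.image_id, Subgroup.closure_eq]
  rw [← h4]
  exact Group.isSolvable_of_surjective (MonoidHom.subgroupMap_surjective f _)

theorem LS.sub {G : Type u} {H : Type v} [Group G] [Group H] (f : G →* H)
    (hf : Function.Injective f) (h : LS H) : LS G := by
  refine ⟨h.1.sub f hf, ?_⟩
  intro K hK
  have h1 : Finite (K.map f) := by
    have : ((K.map f : Subgroup H) : Set H).Finite := by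
      rw [Subgroup.coe_map]
      exact (Set.toFinite (K : Set G)).image _
    exact this.to_subtype
  have h2 : Group.IsSolvable (K.map f) := h.2 _ h1
  refine Group.isSolvable_of_isSolvable_injective (f := f.subgroupMap K) ?_
  intro x y hxy
  exact Subtype.ext (hf (congrArg Subtype.val hxy))

theorem LS.mono {G : Type u} [Group G] {A B : Subgroup G} (h : A ≤ B) (hB : LS B) : LS A :=
  LS.sub (Subgroup.inclusion h) (Subgroup.inclusion_injective h) hB

/-- finite subgroups contained in `N` -/
theorem Fs.of_le {G : Type u} [Group G] {N K : Subgroup G} (hN : Fs N) (hK : Finite K) (h : K ≤ N) :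
    Group.IsSolvable K := by
  have h1 : Finite (K.subgroupOf N) :=
    Finite.of_injective (fun x : K.subgroupOf N => (⟨((x : N) : G), Subgroup.mem_subgroupOf.1 x.2⟩ : K))
      (fun x y hxy => Subtype.ext (Subtype.ext (congrArg (fun z : K => (z : G)) hxy)))
  have h2 : Group.IsSolvable (K.subgroupOf N) := hN _ h1
  refine Group.isSolvable_of_isSolvable_injective (f :=
    ({ toFun := fun x => ⟨⟨(x : G), h x.2⟩, Subgroup.mem_subgroupOf.2 x.2⟩
       map_one' := rfl
       map_mul' := fun _ _ => rfl } : K →* K.subgroupOf N)) ?_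
  intro x y hxy
  exact Subtype.ext (congrArg (fun z : K.subgroupOf N => ((z : N) : G)) hxy)

theorem LS.ext {G : Type u} [Group G] (N : Subgroup G) [N.Normal] (hN : LS N)
    (hQ : LS (G ⧸ N)) : LS G := by
  refine ⟨hN.1.ext N hQ.1, ?_⟩
  intro K hK
  set φ : K →* G ⧸ N := (QuotientGroup.mk' N).comp K.subtype with hφ
  have h1 : Finite φ.range := by
    have : (φ.range : Set (G ⧸ N)).Finite := by
      rw [MonoidHom.coe_range]
      exact Set.toFinite _
    exact this.to_subtype
  have h2 : Group.IsSolvable φ.range := hQ.2 _ h1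
  have h3 : Finite ((N ⊓ K : Subgroup G)) :=
    Finite.of_injective (fun x : (N ⊓ K : Subgroup G) => (⟨(x : G), x.2.2⟩ : K))
      (fun x y hxy => Subtype.ext (congrArg (fun z : K => (z : G)) hxy))
  have h4 : Group.IsSolvable (N ⊓ K : Subgroup G) := hN.2.of_le h3 inf_le_left
  refine solvable_of_ker_le_range (Subgroup.inclusion (inf_le_right : N ⊓ K ≤ K)) φ.rangeRestrict ?_
  intro x hx
  rw [MonoidHom.ker_rangeRestrict, MonoidHom.mem_ker] at hx
  have hx' : (x : G) ∈ N := by
    rw [← QuotientGroup.eq_one_iff]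
    exact hx
  exact ⟨⟨(x : G), hx', x.2⟩, rfl⟩

theorem LS.sup {G : Type u} [Group G] {A B : Subgroup G} [A.Normal] [B.Normal] (hA : LS A)
    (hB : LS B) : LS ↥(A ⊔ B) := by
  have hn : (A.subgroupOf (A ⊔ B)).Normal := by infer_instance
  refine LS.ext (A.subgroupOf (A ⊔ B)) ?_ ?_
  · refine LS.sub (H := ↥A)
      { toFun := fun x => ⟨(x : ↥(A ⊔ B)), x.2⟩
        map_one' := rfl
        map_mul' := fun _ _ => rfl } ?_ hA
    intro x y hxy
    have : ((x : ↥(A ⊔ B)) : G) = ((y : ↥(A ⊔ B)) : G) :=
      congrArg (fun z : ↥A => (z : G)) hxy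
    exact Subtype.ext (Subtype.ext this)
  · refine LS.image (G := ↥B) ((QuotientGroup.mk' (A.subgroupOf (A ⊔ B))).comp
      (Subgroup.inclusion (le_sup_right : B ≤ A ⊔ B))) ?_ hB
    intro q
    obtain ⟨g, rfl⟩ := QuotientGroup.mk'_surjective _ q
    obtain ⟨g, hg⟩ := g
    obtain ⟨a, ha, b, hb, hab⟩ := (Subgroup.mem_sup_of_normal_left (s := A) (t := B)).mp hg
    refine ⟨⟨b, hb⟩, ?_⟩
    simp only [MonoidHom.comp_apply]
    rw [QuotientGroup.mk'_apply, QuotientGroup.mk'_apply, QuotientGroup.eq]
    rw [Subgroup.mem_subgroupOf]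
    simp only [Subgroup.coe_mul, Subgroup.coe_inv, Subgroup.coe_inclusion]
    rw [← hab]
    have := Subgroup.Normal.conj_mem inferInstance a ha b⁻¹
    simpa [mul_assoc] using this

theorem LS.bot {G : Type u} [Group G] : LS (⊥ : Subgroup G) :=
  ⟨fun S hS => inferInstance, fun H _ => inferInstance⟩

/-- the radical -/
def sr (G : Type u) [Group G] : Subgroup G where
  carrier := {g | ∃ M : Subgroup G, M.Normal ∧ LS M ∧ g ∈ M}
  one_mem' := ⟨⊥, inferInstance, LS.bot, Subgroup.mem_bot.2 rfl⟩
  mul_mem' := by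
    rintro a b ⟨M, hM, h1, h2⟩ ⟨N, hN, h3, h4⟩
    haveI := hM
    haveI := hN
    exact ⟨M ⊔ N, inferInstance, LS.sup h1 h3, mul_mem (Subgroup.mem_sup_left h2)
      (Subgroup.mem_sup_right h4)⟩
  inv_mem' := by
    rintro a ⟨M, hM, h1, h2⟩
    exact ⟨M, hM, h1, inv_mem h2⟩

theorem le_sr {G : Type u} [Group G] {M : Subgroup G} (hM : M.Normal) (h : LS M) :
    M ≤ sr G := fun g hg => ⟨M, hM, h, hg⟩

instance sr_normal (G : Type u) [Group G] : (sr G).Normal where
  conj_mem := by
    rintro a ⟨M, hM, h1, h2⟩ g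
    exact ⟨M, hM, h1, hM.conj_mem a h2 g⟩

theorem sr_cover {G : Type u} [Group G] {S : Set G} (hS : S.Finite) (h : S ⊆ sr G) :
    ∃ M : Subgroup G, M.Normal ∧ LS M ∧ S ⊆ M := by
  induction S, hS using Set.Finite.induction_on with
  | empty => exact ⟨⊥, inferInstance, LS.bot, Set.empty_subset _⟩
  | @insert a S ha hS ih =>
    obtain ⟨M, hM, h1, h2⟩ := ih ((Set.subset_insert _ _).trans h)
    obtain ⟨N, hN, h3, h4⟩ := h (Set.mem_insert _ _)
    haveI := hM
    haveI := hN
    refine ⟨N ⊔ M, inferInstance, LS.sup h3 h1, ?_⟩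
    rintro x (rfl | hx)
    · exact Subgroup.mem_sup_left h4
    · exact Subgroup.mem_sup_right (h2 hx)

theorem sr_ls (G : Type u) [Group G] : LS (sr G) := by
  constructor
  · intro S hS
    obtain ⟨M, hM, h1, h2⟩ := sr_cover (hS.image (sr G).subtype) (by
      rintro x ⟨y, hy, rfl⟩
      exact y.2)
    have h3 : Finite (Subgroup.closure ((sr G).subtype '' S)) := h1.1.fin (hS.image _) h2
    rw [← MonoidHom.map_closure] at h3
    have h4 : ((sr G).subtype '' (Subgroup.closure S : Set (sr G))).Finite := by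
      rw [← Subgroup.coe_map]
      exact Set.toFinite _
    exact (Set.Finite.of_finite_image h4 Subtype.val_injective.injOn).to_subtype
  · intro K hK
    have hf : ((K.map (sr G).subtype : Subgroup G) : Set G).Finite := by
      rw [Subgroup.coe_map]
      exact (Set.toFinite (K : Set (sr G))).image _
    obtain ⟨M, hM, h1, h2⟩ := sr_cover hf (by
      rintro x ⟨y, hy, rfl⟩
      exact y.2)
    have h3 : Group.IsSolvable (K.map (sr G).subtype) := h1.2.of_le hf.to_subtype h2
    refine Group.isSolvable_of_isSolvable_injective (f := (sr G).subtype.subgroupMap K) ?_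
    intro x y hxy
    exact Subtype.ext (Subtype.ext (congrArg (fun z : K.map (sr G).subtype => (z : G)) hxy))

/-- the quotient by the radical has trivial radical -/
theorem sr_quot (G : Type u) [Group G] : sr (G ⧸ sr G) = ⊥ := by
  rw [eq_bot_iff]
  rintro x ⟨M, hM, h1, h2⟩
  obtain ⟨g, rfl⟩ := QuotientGroup.mk'_surjective _ x
  set N := M.comap (QuotientGroup.mk' (sr G)) with hN
  have hNn : N.Normal := hM.comap _
  have h3 : LS N := by
    haveI : ((sr G).subgroupOf N).Normal := inferInstance
    refine LS.ext ((sr G).subgroupOf N) ?_ ?_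
    · refine LS.sub (H := sr G)
        { toFun := fun x => ⟨((x : N) : G), Subgroup.mem_subgroupOf.1 x.2⟩
          map_one' := rfl
          map_mul' := fun _ _ => rfl } ?_ (sr_ls G)
      intro x y hxy
      exact Subtype.ext (Subtype.ext (congrArg (fun z : sr G => (z : G)) hxy))
    · obtain ⟨f, hf⟩ : ∃ f : N →* M, ∀ x : N, ((f x : M) : G ⧸ sr G) = ((x : G) : G ⧸ sr G) :=
        ⟨{ toFun := fun x => ⟨((x : G) : G ⧸ sr G), x.2⟩
           map_one' := rfl
           map_mul' := fun _ _ => rfl }, fun _ => rfl⟩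
      have hk : (sr G).subgroupOf N ≤ f.ker := by
        intro x hx
        rw [MonoidHom.mem_ker]
        apply Subtype.ext
        rw [hf]
        exact (QuotientGroup.eq_one_iff _).2 (Subgroup.mem_subgroupOf.1 hx)
      refine LS.sub (H := M) (QuotientGroup.lift _ f hk) ?_ h1
      rw [← MonoidHom.ker_eq_bot_iff, eq_bot_iff]
      intro q hq
      obtain ⟨x, rfl⟩ := QuotientGroup.mk'_surjective _ q
      rw [MonoidHom.mem_ker, QuotientGroup.mk'_apply, QuotientGroup.lift_mk] at hq
      have h4 := congrArg (fun z : M => (z : G ⧸ sr G)) hq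
      simp only [hf] at h4
      rw [Subgroup.mem_bot, QuotientGroup.mk'_apply, QuotientGroup.eq_one_iff,
        Subgroup.mem_subgroupOf]
      exact (QuotientGroup.eq_one_iff _).1 h4
  have h4 : g ∈ sr G := le_sr hNn h3 h2
  rw [Subgroup.mem_bot]
  exact (QuotientGroup.eq_one_iff _).2 h4

/-- locally finite groups of prime power orders -/
theorem LF.ls {p : ℕ} (hp : p.Prime) {G : Type u} [Group G] (h : LF p G) : LS G := by
  refine ⟨h.1, ?_⟩
  intro K hK
  have : Fact p.Prime := ⟨hp⟩
  have hpg : IsPGroup p K := by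
    rintro ⟨x, hx⟩
    obtain ⟨n, hn⟩ := h.2 x
    exact ⟨n, Subtype.ext hn⟩
  have hn : Group.IsNilpotent K := hpg.isNilpotent
  infer_instance

end Pool.Agent.H392.OC
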