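import Pool.Agent.H392.OC.L

/-!
# Iterated Engel words which start with a given element
-/

set_option autoImplicit false
set_option linter.all false

namespace Pool.Agent.H392.OC

universe u v

/-- the iterated Engel word vanishes if the class of the subgroups generated by `z` and `e` further
elements is small -/
theorem foldl_one' {G : Type u} [Group G] {e : ℕ} (z : G)
    (h : ∀ x : Fin e → G, (Subgroup.closure (insert z (Set.range x))).lowerCentralSeries
      ((3 ^ (e + 1) - 3) / 2) = ⊥)
    (l : List G) (hl : l.length = e) : l.foldl (fun a y => E3 y a) z = 1 := by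
  set y : Fin e → G := fun i => l.get (Fin.cast hl.symm i) with hy
  set H := Subgroup.closure (insert z (Set.range y)) with hH
  have hxH : z ∈ H := Subgroup.subset_closure (Set.mem_insert _ _)
  have hlH : ∀ w ∈ l, w ∈ H := by
    intro w hw
    obtain ⟨i, hi⟩ := List.mem_iff_get.1 hw
    apply Subgroup.subset_closure
    exact Or.inr ⟨Fin.cast hl i, by rw [hy]; exact hi⟩
  obtain ⟨l', hl'⟩ := lift_list l hlH
  have hlen' : l'.length = e := by rw [← hl, ← hl', List.length_map]
  have h1 := foldl_lcs l' 0 ((3 ^ (e + 1) - 3) / 2) ⟨z, hxH⟩ (by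
    rw [hlen']
    have h2 : (3 ^ (e + 1) : ℕ) = 3 ^ e * 3 := pow_succ 3 e
    have h3 : 1 ≤ 3 ^ e := Nat.one_le_pow _ _ (by norm_num)
    have h4 : (3 ^ e) % 2 = 1 := by
      rw [Nat.pow_mod]; simp
    rw [h2]
    omega) (Subgroup.mem_top _)
  have h2 : (⊤ : Subgroup H).lowerCentralSeries ((3 ^ (e + 1) - 3) / 2) = ⊥ := by
    have h3 := h y
    rw [← hH, ← Subgroup.top_subtype_lowerCentralSeries] at h3
    have h4 := (Subgroup.map_eq_bot_iff _).1 h3
    rw [Subgroup.ker_subtype] at h4
    exact le_bot_iff.1 h4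
  rw [h2, Subgroup.mem_bot] at h1
  have h5 := foldl_map' H.subtype l' ⟨z, hxH⟩
  rw [h1, hl', map_one] at h5
  exact h5.symm

end Pool.Agent.H392.OC
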