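import Pool.Graph.R_seed8.H32BU.All

/-!
# Finite groups whose exponent has at most two prime divisors are soluble (Burnside)
-/

set_option autoImplicit false
set_option linter.all false

namespace Pool.Agent.H392.OC

universe u

/-- Burnside's theorem, for the exponent -/
theorem burnside {G : Type u} [Group G] [Finite G] {n : ℕ} (hn0 : n ≠ 0)
    (hn : n.primeFactors.card ≤ 2) (h : ∀ x : G, x ^ n = 1) : Group.IsSolvable G := by
  obtain ⟨p, q, a, b, hp, hq, hn'⟩ := H32BU.two_primes n (Nat.pos_of_ne_zero hn0) hn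
  let φ : Shrink.{0} G ≃* G := Shrink.mulEquiv.{0} (α := G)
  haveI : Finite (Shrink.{0} G) := Finite.of_equiv G φ.symm.toEquiv
  have h' : ∀ x : Shrink.{0} G, x ^ (p ^ a * q ^ b) = 1 := by
    intro x
    apply φ.injective
    rw [map_pow, map_one, ← hn']
    exact h _
  obtain ⟨c, d, hcd⟩ := H32BU.x_CRD (Shrink.{0} G) p q a b hp hq h'
  haveI h1 : Group.IsSolvable (Shrink.{0} G) := H32BU.x_BUR (Shrink.{0} G) p q c d hp hq hcd
  exact Group.isSolvable_of_surjective (f := φ.toMonoidHom) φ.surjective

end Pool.Agent.H392.OC
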