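import Pool.Agent.H392.OC.M
import Pool.Agent.H678.Inv.Y

/-!
# Chains in arbitrary groups: elements outside of the radical
-/

set_option autoImplicit false
set_option linter.all false

open scoped commutatorElement

namespace Pool.Agent.H392.OC

open Pool.Agent.R669 (Sw.k Sw.cj)
open Pool.Agent.R669.Sw
open Pool.Agent.W5h59.Bu (LFn)

universe u v

variable {G : Type u} [Group G]

theorem sr_odd {p : ℕ} (hp : p.Prime) (hp2 : p ≠ 2) {a : G} (h3 : a ^ p ∈ sr G)
    (h : ∀ g ∈ Subgroup.normalClosure {a}, E3 g a ∈ sr G) : a ∈ sr G := by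
  haveI : Fact (Odd p) := ⟨hp.odd_of_ne_two hp2⟩
  have hs := QuotientGroup.mk'_surjective (sr G)
  have h1 : QuotientGroup.mk' (sr G) a ∈ rad p (G ⧸ sr G) := by
    apply rad_of_closure
    · rw [← map_pow, QuotientGroup.mk'_apply, QuotientGroup.eq_one_iff]
      exact h3
    · intro g hg
      have e0 : Subgroup.normalClosure {QuotientGroup.mk' (sr G) a} =
          (Subgroup.normalClosure {a}).map (QuotientGroup.mk' (sr G)) := by
        rw [Subgroup.map_normalClosure _ _ hs, Set.image_singleton]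
      rw [e0] at hg
      obtain ⟨g, hg, rfl⟩ := hg
      rw [← E3_map, QuotientGroup.mk'_apply, QuotientGroup.eq_one_iff]
      exact h g hg
  have h2 : rad p (G ⧸ sr G) ≤ sr (G ⧸ sr G) := le_sr inferInstance (LF.ls hp (rad_lf p _))
  have h4 := h2 h1
  rw [sr_quot G, Subgroup.mem_bot, QuotientGroup.mk'_apply, QuotientGroup.eq_one_iff] at h4
  exact h4

theorem sr_two {a : G} (h2 : a ^ 2 ∈ sr G)
    (h4 : ∀ g ∈ Subgroup.normalClosure {a}, (a * (g⁻¹ * a * g)) ^ 4 ∈ sr G)
    (h : ∀ g ∈ Subgroup.normalClosure {a}, ∀ g' ∈ Subgroup.normalClosure {a},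
      ((a * (g⁻¹ * a * g)) ^ 2 * (a * (g'⁻¹ * a * g')) ^ 2) ^ 2 ∈ sr G) : a ∈ sr G := by
  have hs := QuotientGroup.mk'_surjective (sr G)
  have e1 : ∀ x : G, x ∈ sr G → QuotientGroup.mk' (sr G) x = 1 := by
    intro x hx
    rw [QuotientGroup.mk'_apply, QuotientGroup.eq_one_iff]
    exact hx
  have eq : ∀ g : G, H678.Inv.q (QuotientGroup.mk' (sr G) a) (QuotientGroup.mk' (sr G) g) =
      QuotientGroup.mk' (sr G) (H678.Inv.q a g) := by
    intro g
    unfold H678.Inv.q
    rw [H678.Inv.map_k, H678.Inv.map_cj]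
  have e0 : Subgroup.normalClosure {QuotientGroup.mk' (sr G) a} =
      (Subgroup.normalClosure {a}).map (QuotientGroup.mk' (sr G)) := by
    rw [Subgroup.map_normalClosure _ _ hs, Set.image_singleton]
  have h1 : QuotientGroup.mk' (sr G) a ∈ Pool.Agent.W5h59.Bu.rad (G ⧸ sr G) := by
    apply H678.Inv.Co.mr'
    refine ⟨?_, ?_, ?_⟩
    · rw [← map_mul, ← sq]
      exact e1 _ h2
    · intro g hg
      rw [SetLike.mem_coe, e0] at hg
      obtain ⟨g, hg, rfl⟩ := hg
      rw [eq, ← map_mul]
      apply e1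
      rw [← H678.Inv.q4_eq]
      exact h4 g hg
    · intro g hg g' hg'
      rw [SetLike.mem_coe, e0] at hg hg'
      obtain ⟨g, hg, rfl⟩ := hg
      obtain ⟨g', hg', rfl⟩ := hg'
      rw [eq, eq, ← H678.Inv.map_k]
      apply e1
      have h5 := h g hg g' hg'
      rw [H678.Inv.q_eq, H678.Inv.q_eq, sq] at h5
      exact h5
  have h3 : LS (Pool.Agent.W5h59.Bu.rad (G ⧸ sr G)) := by
    have h5 := Pool.Agent.W5h59.Bu.rad_lf (G ⧸ sr G)
    exact LF.ls Nat.prime_two ⟨h5.1, h5.2⟩
  have h2' : Pool.Agent.W5h59.Bu.rad (G ⧸ sr G) ≤ sr (G ⧸ sr G) := le_sr inferInstance h3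
  have h6 := h2' h1
  rw [sr_quot G, Subgroup.mem_bot, QuotientGroup.mk'_apply, QuotientGroup.eq_one_iff] at h6
  exact h6

/-- one step of a chain -/
def Stp (a b : G) : Prop :=
  (∃ p : ℕ, p.Prime ∧ p ∣ orderOf a ∧ b = a ^ p) ∨
  (∃ p k : ℕ, p.Prime ∧ p ≠ 2 ∧ orderOf a = p ^ k ∧
    ∃ g ∈ Subgroup.normalClosure {a}, b = E3 g a) ∨
  ∃ k : ℕ, orderOf a = 2 ^ k ∧
    ((∃ g ∈ Subgroup.normalClosure {a}, b = (a * (g⁻¹ * a * g)) ^ 4) ∨
    ∃ g ∈ Subgroup.normalClosure {a}, ∃ h ∈ Subgroup.normalClosure {a},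
      b = ((a * (g⁻¹ * a * g)) ^ 2 * (a * (h⁻¹ * a * h)) ^ 2) ^ 2)

/-- an infinite chain of nontrivial elements -/
def Mc (f : ℕ → G) : Prop := ∀ n, f n ≠ 1 ∧ Stp (f n) (f (n + 1))

theorem sr_step {b : G} (hb : b ∉ sr G) : ∃ c, c ∉ sr G ∧ Stp b c := by
  by_contra hcon
  have key : ∀ c, Stp b c → c ∈ sr G := fun c hc => by_contra (fun h => hcon ⟨c, h, hc⟩)
  by_cases h1 : orderOf b = 1
  · exact hb (by rw [orderOf_eq_one_iff.1 h1]; exact one_mem _)
  by_cases hpq : ∃ p q : ℕ, p.Prime ∧ q.Prime ∧ p ∣ orderOf b ∧ q ∣ orderOf b ∧ p ≠ q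
  · obtain ⟨p, q, hp, hq, h2, h3, h4⟩ := hpq
    have hp' := key _ (Or.inl ⟨p, hp, h2, rfl⟩)
    have hq' := key _ (Or.inl ⟨q, hq, h3, rfl⟩)
    have hc : Nat.Coprime p q := (Nat.coprime_primes hp hq).2 h4
    apply hb
    rw [← QuotientGroup.eq_one_iff, ← orderOf_eq_one_iff]
    have a1 : orderOf (b : G ⧸ sr G) ∣ p := by
      apply orderOf_dvd_of_pow_eq_one
      rw [← QuotientGroup.mk_pow, QuotientGroup.eq_one_iff]
      exact hp'
    have a2 : orderOf (b : G ⧸ sr G) ∣ q := by
      apply orderOf_dvd_of_pow_eq_one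
      rw [← QuotientGroup.mk_pow, QuotientGroup.eq_one_iff]
      exact hq'
    have a3 := Nat.dvd_gcd a1 a2
    rw [hc] at a3
    exact Nat.dvd_one.1 a3
  · have h0 : orderOf b ≠ 0 := by
      intro h0
      apply hpq
      rw [h0]
      exact ⟨2, 3, Nat.prime_two, Nat.prime_three, dvd_zero _, dvd_zero _, by norm_num⟩
    have hp := Nat.minFac_prime h1
    set p := (orderOf b).minFac with hpd
    have hk : orderOf b = p ^ (orderOf b).primeFactorsList.length := by
      apply Nat.eq_prime_pow_of_unique_prime_dvd h0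
      intro d hd hdd
      by_contra hne
      exact hpq ⟨d, p, hd, hp, hdd, Nat.minFac_dvd _, hne⟩
    have hbp : b ^ p ∈ sr G := key _ (Or.inl ⟨p, hp, Nat.minFac_dvd _, rfl⟩)
    by_cases hp2 : p = 2
    · rw [hp2] at hbp hk
      apply hb
      apply sr_two hbp
      · intro g hg
        exact key _ (Or.inr (Or.inr ⟨_, hk, Or.inl ⟨g, hg, rfl⟩⟩))
      · intro g hg g' hg'
        exact key _ (Or.inr (Or.inr ⟨_, hk, Or.inr ⟨g, hg, g', hg', rfl⟩⟩))
    · apply hb
      apply sr_odd hp hp2 hbp
      intro g hg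
      exact key _ (Or.inr (Or.inl ⟨p, _, hp, hp2, hk, g, hg, rfl⟩))

/-- outside of the radical there is always an infinite chain -/
theorem exists_mc {a : G} (ha : a ∉ sr G) : ∃ f : ℕ → G, f 0 = a ∧ Mc f := by
  have step : ∀ b : {b : G // b ∉ sr G}, ∃ c : {c : G // c ∉ sr G}, Stp b.1 c.1 := by
    rintro ⟨b, hb⟩
    obtain ⟨c, h1, h2⟩ := sr_step hb
    exact ⟨⟨c, h1⟩, h2⟩
  choose nx hnx using step
  let F : ℕ → {b : G // b ∉ sr G} := fun n => nx^[n] ⟨a, ha⟩
  refine ⟨fun n => (F n).1, rfl, ?_⟩
  intro n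
  refine ⟨?_, ?_⟩
  · intro h
    have h' : (F n).1 = 1 := h
    apply (F n).2
    rw [h']
    exact one_mem _
  · have e : F (n + 1) = nx (F n) := Function.iterate_succ_apply' nx n ⟨a, ha⟩
    show Stp (F n).1 (F (n + 1)).1
    rw [e]
    exact hnx _

/-- if there is no infinite chain then every finite subset generates a finite soluble group -/
theorem ls_of_no_mc (h : ∀ f : ℕ → G, ¬ Mc f) : LS G := by
  have h1 : sr G = ⊤ := by
    rw [eq_top_iff]
    intro a _
    by_contra ha
    obtain ⟨f, -, hf⟩ := exists_mc ha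
    exact h f hf
  have h2 := sr_ls G
  rw [h1] at h2
  exact h2.image (Subgroup.topEquiv : (⊤ : Subgroup G) ≃* G).toMonoidHom
    (Subgroup.topEquiv : (⊤ : Subgroup G) ≃* G).surjective

/-- if all `m`-th powers lie in the radical and `m` is good, then the group is locally finite -/
theorem lfn_of_sr {m : ℕ} (h : ∀ x : G, x ^ m ∈ sr G)
    (hm : ∀ (K : Type u) [Group K], (∀ x : K, x ^ m = 1) → LFn K) : LFn G := by
  refine LFn.ext (sr G) (sr_ls G).1 (hm _ ?_)
  intro x
  obtain ⟨x, rfl⟩ := QuotientGroup.mk'_surjective _ x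
  rw [← map_pow, QuotientGroup.mk'_apply, QuotientGroup.eq_one_iff]
  exact h x

/-- commutators of elements of the derived series -/
theorem E3_mem {i j : ℕ} {a g : G} (ha : a ∈ derivedSeries G i) (hg : g ∈ derivedSeries G i)
    (hij : i + 1 = j) : E3 g a ∈ derivedSeries G j := by
  subst hij
  have e : ∀ x y : G, k x y = ⁅x⁻¹, y⁻¹⁆ := by
    intro x y
    rw [commutatorElement_def]; unfold k; group
  have e1 : k g a ∈ derivedSeries G (i + 1) := by
    rw [e, derivedSeries_succ]
    exact Subgroup.commutator_mem_commutator (inv_mem hg) (inv_mem ha)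
  have hn : ∀ x ∈ derivedSeries G (i + 1), ∀ y : G, k x y ∈ derivedSeries G (i + 1) := by
    intro x hx y
    rw [k_eq]
    refine mul_mem (inv_mem hx) ?_
    have := (derivedSeries_normal G (i + 1)).conj_mem x hx y⁻¹
    simpa [Sw.cj] using this
  exact hn _ (hn _ e1 _) _

/-- periodic soluble groups have no infinite chains -/
theorem no_mc {s : ℕ} (ht : ∀ x : G, orderOf x ≠ 0) (hs : derivedSeries G s = ⊥)
    (f : ℕ → G) : ¬ Mc f := by
  have key : ∀ i, i ≤ s → ∀ d e : ℕ, ∀ f : ℕ → G, f 0 ∈ derivedSeries G (s - i) →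
      orderOf (f 0 : G ⧸ derivedSeries G (s - i + 1)) ≤ d → orderOf (f 0) ≤ e → ¬ Mc f := by
    intro i
    induction i with
    | zero =>
      intro _ d e f h0 _ _ hf
      rw [Nat.sub_zero, hs, Subgroup.mem_bot] at h0
      exact (hf 0).1 h0
    | succ i ih =>
      intro hi d
      have hji : s - (i + 1) + 1 = s - i := by omega
      have hpos : ∀ x : G, 0 < orderOf (x : G ⧸ derivedSeries G (s - (i + 1) + 1)) := by
        intro x
        rw [orderOf_pos_iff, isOfFinOrder_iff_pow_eq_one]
        refine ⟨orderOf x, Nat.pos_of_ne_zero (ht x), ?_⟩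
        rw [← QuotientGroup.mk_pow, pow_orderOf_eq_one, QuotientGroup.mk_one]
      induction d with
      | zero =>
        intro e f h0 h1 _ hf
        exact absurd h1 (by have := hpos (f 0); omega)
      | succ d ihd =>
        intro e
        induction e with
        | zero =>
          intro f h0 _ h2 hf
          exact absurd h2 (by have := ht (f 0); omega)
        | succ e ihe =>
          intro f h0 h1 h2 hf
          have hf' : Mc (fun n => f (n + 1)) := fun n => hf (n + 1)
          by_cases hx : f 0 ∈ derivedSeries G (s - i)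
          · exact ih (by omega) _ _ f hx le_rfl le_rfl hf
          set L := derivedSeries G (s - (i + 1)) with hL
          set M := derivedSeries G (s - (i + 1) + 1) with hM
          have hML : M ≤ L := derivedSeries_antitone G (by omega)
          have hLn : L.Normal := inferInstance
          have hMn : M.Normal := inferInstance
          have hN : Subgroup.normalClosure {f 0} ≤ L :=
            Subgroup.normalClosure_le_normal (Set.singleton_subset_iff.2 h0)
          have hconj : ∀ g : G, g⁻¹ * f 0 * g ∈ L := by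
            intro g
            have := hLn.conj_mem (f 0) h0 g⁻¹
            rwa [inv_inv] at this
          have hcen : ∀ g ∈ L, QuotientGroup.mk' M (g⁻¹ * f 0 * g) = QuotientGroup.mk' M (f 0) := by
            intro g hg
            rw [QuotientGroup.mk'_apply, QuotientGroup.mk'_apply, QuotientGroup.eq]
            have e : (g⁻¹ * f 0 * g)⁻¹ * f 0 = ⁅g⁻¹, (f 0)⁻¹⁆ := by
              rw [commutatorElement_def]; group
            rw [e, hM, derivedSeries_succ]
            exact Subgroup.commutator_mem_commutator (inv_mem hg) (inv_mem h0)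
          have hsq : ∀ g ∈ L, QuotientGroup.mk' M (f 0 * (g⁻¹ * f 0 * g)) =
              QuotientGroup.mk' M (f 0) ^ 2 := by
            intro g hg
            rw [map_mul, hcen g hg, sq]
          -- even case
          have fin : ∀ k m : ℕ, orderOf (f 0) = 2 ^ k → f 1 ∈ L →
              QuotientGroup.mk' M (f 1) = QuotientGroup.mk' M (f 0) ^ (2 * m) → False := by
            intro k m hk hfL he
            have b1 : QuotientGroup.mk' M (f 0) ^ 2 ^ k = 1 := by
              rw [← map_pow, ← hk, pow_orderOf_eq_one, map_one]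
            obtain ⟨l, hl, hl'⟩ := (Nat.dvd_prime_pow Nat.prime_two).1
              (orderOf_dvd_of_pow_eq_one b1)
            have hl0 : l ≠ 0 := by
              rintro rfl
              rw [pow_zero, orderOf_eq_one_iff, QuotientGroup.mk'_apply,
                QuotientGroup.eq_one_iff] at hl'
              apply hx
              rw [← hji]
              exact hl'
            obtain ⟨l, rfl⟩ := Nat.exists_eq_succ_of_ne_zero hl0
            have b2 : orderOf (QuotientGroup.mk' M (f 1)) ≤ 2 ^ l := by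
              apply orderOf_le_of_pow_eq_one (by positivity)
              rw [he, ← pow_mul, show 2 * m * 2 ^ l = 2 ^ (l + 1) * m by ring, pow_mul,
                show (2 : ℕ) ^ (l + 1) = orderOf (QuotientGroup.mk' M (f 0)) from hl'.symm,
                pow_orderOf_eq_one, one_pow]
            have b3 : orderOf (QuotientGroup.mk' M (f 0)) ≤ d + 1 := h1
            rw [hl'] at b3
            have b4 : (2 : ℕ) ^ (l + 1) = 2 * 2 ^ l := by ring
            have b5 : 0 < (2 : ℕ) ^ l := by positivity
            have b6 : l.succ = l + 1 := rfl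
            rw [b6, b4] at b3
            exact ihd _ (fun n => f (n + 1)) hfL (le_trans b2 (by omega)) le_rfl hf'
          rcases (hf 0).2 with ⟨p, hp, hpd, h3⟩ | ⟨p, k, hp, hp2, hk, g, hg, h3⟩ |
            ⟨k, hk, ⟨g, hg, h3⟩ | ⟨g, hg, g', hg', h3⟩⟩
          · refine ihe (fun n => f (n + 1)) ?_ ?_ ?_ hf'
            · show f (0 + 1) ∈ _
              rw [h3]
              exact pow_mem h0 p
            · refine le_trans (Nat.le_of_dvd (hpos (f 0)) ?_) h1
              show orderOf ((f (0 + 1) : G) : G ⧸ M) ∣ _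
              rw [h3, QuotientGroup.mk_pow]
              exact orderOf_pow_dvd p
            · show orderOf (f (0 + 1)) ≤ e
              rw [h3, orderOf_pow_of_dvd hp.ne_zero hpd]
              have := Nat.div_lt_self (Nat.pos_of_ne_zero (ht (f 0))) hp.one_lt
              omega
          · refine ih (by omega) _ _ (fun n => f (n + 1)) ?_ le_rfl le_rfl hf'
            show f (0 + 1) ∈ _
            rw [h3]
            exact E3_mem h0 (hN hg) hji
          · refine fin k 4 hk ?_ ?_
            · show f (0 + 1) ∈ _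
              rw [h3]
              exact pow_mem (mul_mem h0 (hconj g)) 4
            · show QuotientGroup.mk' M (f (0 + 1)) = _
              rw [h3, map_pow, hsq g (hN hg), ← pow_mul]
          · refine fin k 8 hk ?_ ?_
            · show f (0 + 1) ∈ _
              rw [h3]
              exact pow_mem (mul_mem (pow_mem (mul_mem h0 (hconj g)) 2)
                (pow_mem (mul_mem h0 (hconj g')) 2)) 2
            · show QuotientGroup.mk' M (f (0 + 1)) = _
              rw [h3, map_pow, map_mul, map_pow, map_pow, hsq g (hN hg), hsq g' (hN hg'),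
                ← pow_mul, ← pow_add, ← pow_mul]
  exact key s le_rfl _ _ f (by rw [Nat.sub_self]; exact Subgroup.mem_top _) le_rfl le_rfl

end Pool.Agent.H392.OC
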