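import Pool.Agent.H392.OC.T

/-!
# Finite groups without infinite chains are soluble
-/

set_option autoImplicit false
set_option linter.all false

open scoped commutatorElement

namespace Pool.Agent.H392.OC

open Pool.Agent.R669 (Sw.k Sw.cj)
open Pool.Agent.R669.Sw
open Pool.Agent.W5h59.Bu (LFn)

universe u v

variable {G : Type u} [Group G] {ν : ℕ}

/-- steps can be lifted -/
theorem Sp.lift {H : Type v} [Group H] (φ : G →* H) (hφ : Function.Surjective φ) {a : G} {b' : H}
    (h : Sp ν (φ a) b') : ∃ b : G, Sp ν a b ∧ φ b = b' := by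
  rcases h with h | ⟨g', hg', h⟩
  · exact ⟨a ^ ν, Or.inl rfl, by rw [map_pow, h]⟩
  · have e0 : Subgroup.normalClosure {φ a} = (Subgroup.normalClosure {a}).map φ := by
      rw [Subgroup.map_normalClosure _ _ hφ, Set.image_singleton]
    rw [e0] at hg'
    obtain ⟨g, hg, rfl⟩ := hg'
    exact ⟨E3 g a, Or.inr ⟨g, hg, rfl⟩, by rw [E3_map, h]⟩

theorem no_chain_quot {H : Type v} [Group H] (φ : G →* H) (hφ : Function.Surjective φ)
    (h : ∀ f : ℕ → G, ¬ Ch ν f) (f : ℕ → H) : ¬ Ch ν f := by
  intro hf
  have step : ∀ n (x : {x : G // φ x = f n}), ∃ y : {y : G // φ y = f (n + 1)}, Sp ν x.1 y.1 := by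
    rintro n ⟨x, hx⟩
    have h1 := (hf n).2
    rw [← hx] at h1
    obtain ⟨b, hb, hb'⟩ := h1.lift φ hφ
    exact ⟨⟨b, hb'⟩, hb⟩
  choose nx hnx using step
  obtain ⟨a0, h0⟩ := hφ (f 0)
  let F : (n : ℕ) → {x : G // φ x = f n} := fun n =>
    Nat.rec (motive := fun n => {x : G // φ x = f n}) ⟨a0, h0⟩ (fun n x => nx n x) n
  refine h (fun n => (F n).1) ?_
  intro n
  refine ⟨?_, hnx n (F n)⟩
  intro h1
  apply (hf n).1
  rw [← (F n).2]
  have h1' : (F n).1 = 1 := h1
  rw [h1', map_one]

theorem no_chain_sub (N : Subgroup G) (h : ∀ f : ℕ → G, ¬ Ch ν f) (f : ℕ → N) : ¬ Ch ν f := by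
  intro hf
  refine h (fun n => (f n).1) ?_
  intro n
  refine ⟨fun h1 => (hf n).1 (Subtype.ext h1), ?_⟩
  rcases (hf n).2 with h1 | ⟨g, hg, h1⟩
  · refine Or.inl ?_
    show (f (n + 1)).1 = (f n).1 ^ ν
    rw [h1]
    rfl
  · refine Or.inr ⟨g.1, ?_, ?_⟩
    · have : Subgroup.normalClosure {f n} ≤ (Subgroup.normalClosure {(f n).1}).comap N.subtype := by
        apply Subgroup.normalClosure_le_normal
        rw [Set.singleton_subset_iff]
        exact Subgroup.subset_normalClosure rfl
      exact this hg
    · show (f (n + 1)).1 = _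
      rw [h1]
      exact E3_map N.subtype _ _

/-- finite groups without infinite chains are soluble -/
theorem solv [hν : Fact (Odd ν)] (n : ℕ) : ∀ (G : Type u) [Group G] [Finite G], Nat.card G ≤ n →
    (∀ f : ℕ → G, ¬ Ch ν f) → Group.IsSolvable G := by
  induction n with
  | zero =>
    intro G _ _ hc _
    exact absurd hc (by have := Nat.card_pos (α := G); omega)
  | succ n ih =>
    intro G _ _ hc h
    by_cases ht : ∀ x : G, x = 1
    · have : Subsingleton G := ⟨fun x y => by rw [ht x, ht y]⟩
      infer_instance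
    push Not at ht
    obtain ⟨x0, hx0⟩ := ht
    have hex : ∃ a : G, a ≠ 1 ∧ ∀ c, Sp ν a c → c = 1 := by
      by_contra hcon
      push Not at hcon
      obtain ⟨f, -, hf⟩ := exists_chain_of (ν := ν) (P := fun b : G => b ≠ 1) (fun b hb => hb)
        (fun b hb => by
          obtain ⟨c, h1, h2⟩ := hcon b hb
          exact ⟨c, h2, h1⟩) hx0
      exact h f hf
    obtain ⟨a, ha, hs⟩ := hex
    have h3 : a ^ ν = 1 := hs _ (Or.inl rfl)
    have hE : ∀ g ∈ Subgroup.normalClosure {a}, E3 g a = 1 := fun g hg => hs _ (Or.inr ⟨g, hg, rfl⟩)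
    set N := Subgroup.normalClosure {a} with hN
    by_cases hT : N = ⊤
    · have hE' : ∀ g : G, E3 g a = 1 := fun g => hE g (by rw [hT]; exact Subgroup.mem_top g)
      have hX := Pm.sys h3 (comm_of_engel hE')
      obtain ⟨c, hc'⟩ := nilp' hX (Set.toFinite _) (le_refl (Gen (Pm (cl a))))
      have hn : (Subgroup.closure (Gen (Pm (cl a)))).Normal := by
        constructor
        intro n hn g
        induction hn using Subgroup.closure_induction with
        | mem x hx =>
          apply Subgroup.subset_closure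
          have := hX.cj hx g⁻¹
          simpa [Sw.cj] using this
        | one => rw [mul_one, mul_inv_cancel]; exact one_mem _
        | mul x y _ _ h1 h2 =>
          rw [show g * (x * y) * g⁻¹ = (g * x * g⁻¹) * (g * y * g⁻¹) by group]
          exact mul_mem h1 h2
        | inv x _ h1 =>
          rw [show g * x⁻¹ * g⁻¹ = (g * x * g⁻¹)⁻¹ by group]
          exact inv_mem h1
      have h5 : N ≤ Subgroup.closure (Gen (Pm (cl a))) := by
        apply Subgroup.normalClosure_le_normal
        rw [Set.singleton_subset_iff]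
        exact Subgroup.subset_closure (Gen.sub _ (Or.inl (cl.self a)))
      rw [hT, top_le_iff] at h5
      rw [h5] at hc'
      have : Group.IsNilpotent G := Subgroup.nilpotent_iff_lowerCentralSeries.2 ⟨c, hc'⟩
      infer_instance
    · have hN1 : N ≠ ⊥ := by
        intro h1
        apply ha
        have : a ∈ N := Subgroup.subset_normalClosure rfl
        rw [h1, Subgroup.mem_bot] at this
        exact this
      have c1 : Nat.card N < Nat.card G :=
        (Subgroup.card_le_card_group N).lt_of_ne (fun h1 => hT (Subgroup.eq_top_of_card_eq N h1))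
      have c2 : Nat.card (G ⧸ N) < Nat.card G := by
        have e := Subgroup.card_eq_card_quotient_mul_card_subgroup N
        have h1 : 1 < Nat.card N := (Subgroup.one_lt_card_iff_ne_bot N).2 hN1
        have h2 : 0 < Nat.card (G ⧸ N) := Nat.card_pos
        rw [e]
        exact lt_mul_of_one_lt_right h2 h1
      have s1 : Group.IsSolvable N := ih N (by omega) (no_chain_sub N h)
      have s2 : Group.IsSolvable (G ⧸ N) := ih (G ⧸ N) (by omega)
        (no_chain_quot (QuotientGroup.mk' N) (QuotientGroup.mk'_surjective N) h)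
      exact solvable_of_ker_le_range N.subtype (QuotientGroup.mk' N)
        (by rw [QuotientGroup.ker_mk', Subgroup.range_subtype])

end Pool.Agent.H392.OC
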