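import Pool.Agent.H392.OC.N

/-!
# Left `3`-Engel elements of odd order, chains

Adapted from `H325/M.lean` and `H325/T.lean` (elements of order three).
-/

set_option autoImplicit false
set_option linter.all false

open scoped commutatorElement

namespace Pool.Agent.H392.OC

open Pool.Agent.R669 (Sw.k Sw.cj)
open Pool.Agent.R669.Sw
open Pool.Agent.W5h59.Bu (LFn)

universe u v

variable {G : Type u} [Group G] {ν : ℕ} [hν : Fact (Odd ν)]

/-- the conjugacy class -/
def cl (a : G) : Set G := {x | ∃ g, x = Sw.cj a g}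

omit hν in
theorem cl.self (a : G) : a ∈ cl a := ⟨1, (cj_one a).symm⟩

omit hν in
theorem cl.cj {a : G} : ∀ x ∈ cl a, ∀ g, Sw.cj x g ∈ cl a := by
  rintro _ ⟨h, rfl⟩ g
  exact ⟨h * g, cj_cj a h g⟩

/-- the elements of a set and their inverses -/
def Pm (C : Set G) : Set G := {x | x ∈ C ∨ x⁻¹ ∈ C}

theorem Pm.sys {q : G} (q3 : q ^ ν = 1) (h : ∀ g, Commute q (k q (Sw.cj q g))) :
    Sys ν (Gen (Pm (cl q))) := by
  have b1 : ∀ x ∈ cl q, ∀ y ∈ cl q, Commute x (k x y) := by
    rintro _ ⟨g, rfl⟩ _ ⟨h', rfl⟩
    have := comm_cj (h (h' * g⁻¹)) g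
    rw [cj_k, cj_cj q (h' * g⁻¹) g, inv_mul_cancel_right] at this
    exact this
  have b2 : ∀ x ∈ cl q, ∀ y ∈ cl q, Commute y (k x y) := by
    intro x hx y hy
    rw [← k_inv]
    exact (b1 y hy x hx).inv_right
  have c3 : ∀ x ∈ cl q, x ^ ν = 1 := by
    rintro _ ⟨g, rfl⟩
    exact cube_cj q3 g
  apply Gen.sys
  · refine ⟨?_, ?_⟩
    · rintro x (hx | hx) g
      · exact Or.inl (cl.cj x hx g)
      · exact Or.inr (by rw [← cj_inv]; exact cl.cj _ hx g)
    · -- pairs
      have b3 : ∀ x ∈ cl q, ∀ y ∈ Pm (cl q), Commute x (k x y) ∧ Commute y (k x y) := by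
        rintro x hx y (hy | hy)
        · exact ⟨b1 x hx y hy, b2 x hx y hy⟩
        · have h1 := b1 x hx _ hy
          have h2 := b2 x hx _ hy
          have e : k x y = (k x y⁻¹)⁻¹ := by
            have := k_inv_right h2
            rw [inv_inv] at this
            exact this
          rw [e]
          exact ⟨h1.inv_right, by simpa using h2.inv_left.inv_right⟩
      rintro x (hx | hx) y hy
      · exact (b3 x hx y hy).1
      · have h1 := (b3 _ hx y hy).1
        have e : k x y = (k x⁻¹ y)⁻¹ := by
          have := k_inv_left h1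
          rw [inv_inv] at this
          exact this
        rw [e]
        simpa using h1.inv_left.inv_right
  · rintro x (hx | hx)
    · exact c3 x hx
    · have := cube_inv (c3 _ hx)
      rwa [inv_inv] at this
  · rintro x (hx | hx)
    · exact Or.inr (by rw [inv_inv]; exact hx)
    · exact Or.inl hx

/-- the commutator `[g, a, a, a]` -/
def E3 (g a : G) : G := k (k (k g a) a) a

omit hν in
theorem E3_cj (g a x : G) : Sw.cj (E3 g a) x = E3 (Sw.cj g x) (Sw.cj a x) := by
  unfold E3
  rw [cj_k, cj_k, cj_k]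

omit hν in
theorem E3_map {H : Type v} [Group H] (f : G →* H) (g a : G) : f (E3 g a) = E3 (f g) (f a) := by
  simp [E3, k]

omit hν in
/-- a left `3`-Engel element commutes with its commutators with its conjugates -/
theorem comm_of_engel {a : G} (h : ∀ x, E3 x a = 1) (x : G) : Commute a (k a (Sw.cj a x)) := by
  set c := Sw.cj a x with hc
  have h1 : k x a = c⁻¹ * a := by rw [hc]; unfold k Sw.cj; group
  have h2 : k (c⁻¹ * a) a = Sw.cj (k c⁻¹ a) a := by unfold k Sw.cj; group
  have h3 : Sw.cj (k (k c⁻¹ a) a) a = 1 := by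
    have := h x
    unfold E3 at this
    rw [h1, h2] at this
    rw [cj_k, cj_of_comm (Commute.refl a)]
    exact this
  have h4 : k (k c⁻¹ a) a = 1 := by
    have e : k (k c⁻¹ a) a = a * Sw.cj (k (k c⁻¹ a) a) a * a⁻¹ := by
      unfold Sw.cj; group
    rw [e, h3]; group
  have h5 : Commute (k c⁻¹ a) a := k_eq_one.1 h4
  have h6 := comm_cj h5 c
  have h7 : Sw.cj (k c⁻¹ a) c = k a c := by unfold k Sw.cj; group
  rw [h7, k_eq] at h6
  -- `a⁻¹ * cj a c` commutes with `cj a c`
  have h8 : Commute a (Sw.cj a c) := by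
    have := h6.mul_left ((Commute.refl (Sw.cj a c)).inv_left)
    rw [mul_inv_cancel_right] at this
    exact Commute.inv_left_iff.1 this
  rw [k_eq]
  exact (Commute.refl a).inv_right.mul_right h8

/-- **Jabara–Traustason**: left `3`-Engel elements of odd order are in the radical -/
theorem engel_rad {a : G} (ha : a ^ ν = 1) (h : ∀ x, E3 x a = 1) : a ∈ rad ν G :=
  sys_rad (Pm.sys ha (comm_of_engel h)) (Gen.sub _ (Or.inl (cl.self a)))

/-- it suffices to consider the commutators with the elements of the normal closure -/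
theorem rad_of_closure {a : G} (h3 : a ^ ν = 1)
    (h : ∀ g ∈ Subgroup.normalClosure {a}, E3 g a = 1) : a ∈ rad ν G := by
  set N := Subgroup.normalClosure {a} with hN
  have haN : a ∈ N := Subgroup.subset_normalClosure rfl
  have hcN : ∀ x ∈ cl a, x ∈ N := by
    rintro _ ⟨g, rfl⟩
    have := Subgroup.Normal.conj_mem (inferInstance : N.Normal) a haN g⁻¹
    simpa [Sw.cj] using this
  have h1 : ∀ x : N, (x : G) ∈ cl a → x ∈ rad ν N := by
    rintro ⟨x, hx⟩ ⟨g, hg⟩
    have hg' : x = Sw.cj a g := hg
    apply engel_rad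
    · apply Subtype.ext
      show x ^ ν = 1
      rw [hg']
      exact cube_cj h3 g
    · rintro ⟨y, hy⟩
      apply Subtype.ext
      have e1 : ((E3 (⟨y, hy⟩ : N) ⟨x, hx⟩ : N) : G) = E3 y x := E3_map N.subtype _ _
      show ((E3 (⟨y, hy⟩ : N) ⟨x, hx⟩ : N) : G) = 1
      rw [e1]
      have e : E3 y x = Sw.cj (E3 (Sw.cj y g⁻¹) a) g := by
        rw [E3_cj, cj_cj, inv_mul_cancel, cj_one, hg']
      rw [e, h]
      · simp [Sw.cj]
      · have := Subgroup.Normal.conj_mem (inferInstance : N.Normal) y hy g
        simpa [Sw.cj] using this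
  have hM : (Subgroup.closure (cl a)).Normal := by
    constructor
    intro n hn g
    induction hn using Subgroup.closure_induction with
    | mem x hx =>
      apply Subgroup.subset_closure
      have := cl.cj x hx g⁻¹
      simpa [Sw.cj] using this
    | one => rw [mul_one, mul_inv_cancel]; exact one_mem _
    | mul x y _ _ h1 h2 =>
      rw [show g * (x * y) * g⁻¹ = (g * x * g⁻¹) * (g * y * g⁻¹) by group]
      exact mul_mem h1 h2
    | inv x _ h1 =>
      rw [show g * x⁻¹ * g⁻¹ = (g * x * g⁻¹)⁻¹ by group]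
      exact inv_mem h1
  have hle : Subgroup.closure (cl a) ≤ (rad ν N).map N.subtype := by
    rw [Subgroup.closure_le]
    intro x hx
    exact ⟨⟨x, hcN x hx⟩, h1 ⟨x, hcN x hx⟩ hx, rfl⟩
  have hL : LF ν ((rad ν N).map N.subtype) :=
    (rad_lf ν N).image (N.subtype.subgroupMap (rad ν N))
      (N.subtype.subgroupMap_surjective (rad ν N))
  exact le_rad hM (LF.mono hle hL) (Subgroup.subset_closure (cl.self a))

/-- the same modulo the radical -/
theorem rad_step {a : G} (h3 : a ^ ν ∈ rad ν G)
    (h : ∀ g ∈ Subgroup.normalClosure {a}, E3 g a ∈ rad ν G) : a ∈ rad ν G := by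
  have hs := QuotientGroup.mk'_surjective (rad ν G)
  have h1 : QuotientGroup.mk' (rad ν G) a ∈ rad ν (G ⧸ rad ν G) := by
    apply rad_of_closure
    · rw [← map_pow, QuotientGroup.mk'_apply, QuotientGroup.eq_one_iff]
      exact h3
    · intro g hg
      have e0 : Subgroup.normalClosure {QuotientGroup.mk' (rad ν G) a} =
          (Subgroup.normalClosure {a}).map (QuotientGroup.mk' (rad ν G)) := by
        rw [Subgroup.map_normalClosure _ _ hs, Set.image_singleton]
      rw [e0] at hg
      obtain ⟨g, hg, rfl⟩ := hg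
      rw [← E3_map, QuotientGroup.mk'_apply, QuotientGroup.eq_one_iff]
      exact h g hg
  rw [rad_quot ν G, Subgroup.mem_bot, QuotientGroup.mk'_apply, QuotientGroup.eq_one_iff] at h1
  exact h1

/-- one step of a chain: the `ν`-th power, or `[g, a, a, a]` with `g` in the normal closure of `a` -/
def Sp (ν : ℕ) (a b : G) : Prop := b = a ^ ν ∨ ∃ g ∈ Subgroup.normalClosure {a}, b = E3 g a

/-- an infinite chain of nontrivial elements -/
def Ch (ν : ℕ) (f : ℕ → G) : Prop := ∀ n, f n ≠ 1 ∧ Sp ν (f n) (f (n + 1))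

/-- a property for which every bad element has a bad successor -/
theorem exists_chain_of {P : G → Prop} (h1 : ∀ b, P b → b ≠ 1)
    (h : ∀ b, P b → ∃ c, P c ∧ Sp ν b c) {a : G} (ha : P a) : ∃ f : ℕ → G, f 0 = a ∧ Ch ν f := by
  choose nx hn1 hn2 using h
  let nx' : {b : G // P b} → {b : G // P b} := fun b => ⟨nx b.1 b.2, hn1 b.1 b.2⟩
  let F : ℕ → {b : G // P b} := fun n => nx'^[n] ⟨a, ha⟩
  refine ⟨fun n => (F n).1, rfl, ?_⟩
  intro n
  refine ⟨h1 _ (F n).2, ?_⟩
  have e : F (n + 1) = nx' (F n) := Function.iterate_succ_apply' nx' n ⟨a, ha⟩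
  show Sp ν (F n).1 (F (n + 1)).1
  rw [e]
  exact hn2 _ _

/-- outside of the radical there is always an infinite chain -/
theorem exists_chain {a : G} (ha : a ∉ rad ν G) : ∃ f : ℕ → G, f 0 = a ∧ Ch ν f := by
  refine exists_chain_of (P := fun b => b ∉ rad ν G) ?_ ?_ ha
  · rintro b hb rfl
    exact hb (one_mem _)
  · intro b hb
    by_contra hcon
    push Not at hcon
    apply hb
    apply rad_step
    · by_contra h
      exact hcon (b ^ ν) h (Or.inl rfl)
    · intro g hg
      by_contra h
      exact hcon _ h (Or.inr ⟨g, hg, rfl⟩)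

omit hν in
/-- there are no infinite chains in soluble groups of exponent dividing a power of `ν` -/
theorem no_chain {r s : ℕ} (h : ∀ x : G, x ^ ν ^ r = 1) (hs : derivedSeries G s = ⊥)
    (f : ℕ → G) : ¬ Ch ν f := by
  have key : ∀ i, i ≤ s → ∀ j, ∀ f : ℕ → G, f 0 ∈ derivedSeries G (s - i) →
      (f 0) ^ ν ^ j = 1 → ¬ Ch ν f := by
    intro i
    induction i with
    | zero =>
      intro _ j f h0 _ hf
      rw [Nat.sub_zero, hs, Subgroup.mem_bot] at h0
      exact (hf 0).1 h0
    | succ i ih =>
      intro hi j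
      induction j with
      | zero =>
        intro f _ h1 hf
        rw [pow_zero, pow_one] at h1
        exact (hf 0).1 h1
      | succ j ihj =>
        intro f h0 h1 hf
        have hf' : Ch ν (fun n => f (n + 1)) := fun n => hf (n + 1)
        rcases (hf 0).2 with h2 | ⟨g, hg, h2⟩
        · refine ihj (fun n => f (n + 1)) ?_ ?_ hf'
          · show f (0 + 1) ∈ _
            rw [h2]
            exact pow_mem h0 ν
          · show f (0 + 1) ^ ν ^ j = 1
            rw [h2, ← pow_mul, ← pow_succ']
            exact h1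
        · refine ih (by omega) r (fun n => f (n + 1)) ?_ (h _) hf'
          show f (0 + 1) ∈ _
          rw [h2]
          have hg' : g ∈ derivedSeries G (s - (i + 1)) := by
            have : Subgroup.normalClosure {f 0} ≤ derivedSeries G (s - (i + 1)) :=
              Subgroup.normalClosure_le_normal (Set.singleton_subset_iff.2 h0)
            exact this hg
          have e : ∀ x y : G, k x y = ⁅x⁻¹, y⁻¹⁆ := by
            intro x y
            rw [commutatorElement_def]; unfold k; group
          have e1 : k g (f 0) ∈ derivedSeries G (s - i) := by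
            rw [e, show s - i = s - (i + 1) + 1 by omega, derivedSeries_succ]
            exact Subgroup.commutator_mem_commutator (inv_mem hg') (inv_mem h0)
          have hn : ∀ x ∈ derivedSeries G (s - i), ∀ y : G, k x y ∈ derivedSeries G (s - i) := by
            intro x hx y
            rw [k_eq]
            refine mul_mem (inv_mem hx) ?_
            have := (derivedSeries_normal G (s - i)).conj_mem x hx y⁻¹
            simpa [Sw.cj] using this
          exact hn _ (hn _ e1 _) _
  exact key s le_rfl r f (by rw [Nat.sub_self]; exact Subgroup.mem_top _) (h _)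

/-- if all `m`-th powers lie in the radical and `m` is good, then the group is locally finite -/
theorem lfn_of_rad {m : ℕ} (h : ∀ x : G, x ^ m ∈ rad ν G)
    (hm : ∀ (K : Type u) [Group K], (∀ x : K, x ^ m = 1) → LFn K) : LFn G := by
  refine LFn.ext (rad ν G) (rad_lf ν G).1 (hm _ ?_)
  intro x
  obtain ⟨x, rfl⟩ := QuotientGroup.mk'_surjective _ x
  rw [← map_pow, QuotientGroup.mk'_apply, QuotientGroup.eq_one_iff]
  exact h x

/-- if there is no infinite chain then the group is locally finite -/
theorem lf_of_no_chain (h : ∀ f : ℕ → G, ¬ Ch ν f) : LF ν G := by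
  have h1 : rad ν G = ⊤ := by
    rw [eq_top_iff]
    intro a _
    by_contra ha
    obtain ⟨f, -, hf⟩ := exists_chain ha
    exact h f hf
  have h2 := rad_lf ν G
  rw [h1] at h2
  exact h2.image (Subgroup.topEquiv : (⊤ : Subgroup G) ≃* G).toMonoidHom
    (Subgroup.topEquiv : (⊤ : Subgroup G) ≃* G).surjective

end Pool.Agent.H392.OC
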