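import Pool.Graph.R_seed8.Results.MP_544bd1_al.ThreeGeneratorsFive
import Pool.Graph.R_seed8.Results.MP_544bd1_al.TwoGeneratorsMultiplesOfFive
import Pool.Graph.R_seed8.Results.MP_544bd1_al.TwoGeneratorsTwelve

/-!
# Small exponents: the free Burnside groups of rank two and three (library results)
-/

set_option autoImplicit false
set_option linter.all false

namespace Pool.Agent.H392.OC

universe u

/-- the free Burnside group -/
abbrev BB (d n : ℕ) : Type :=
  FreeGroup (Fin d) ⧸ Subgroup.normalClosure (Set.range fun w : FreeGroup (Fin d) => w ^ n)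

theorem small_exp {n d : ℕ} (hnd : (n = 5 ∧ d = 3) ∨ ((n = 10 ∨ n = 12 ∨ n = 15 ∨ n = 20) ∧ d = 2))
    (hf : Finite (BB d n)) : ∀ (G : Type u) [Group G], (∀ x : G, x ^ n = 1) →
      ∀ S : Set G, S.Finite → Finite (Subgroup.closure S) := by
  rcases hnd with ⟨rfl, rfl⟩ | ⟨h, rfl⟩
  · exact (Results.MP_544bd1_al.ThreeGeneratorsFive.result.{u}.2.2.1 5 (Or.inl rfl)).2 hf
  · rcases h with rfl | rfl | rfl | rfl
    · exact (Results.MP_544bd1_al.TwoGeneratorsMultiplesOfFive.result.{u}.2.2.1 10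
        (Or.inl rfl)).2 hf
    · exact (Results.MP_544bd1_al.TwoGeneratorsTwelve.result.{u}.1).2 hf
    · exact (Results.MP_544bd1_al.TwoGeneratorsMultiplesOfFive.result.{u}.2.2.1 15
        (Or.inr (Or.inl rfl))).2 hf
    · exact (Results.MP_544bd1_al.TwoGeneratorsMultiplesOfFive.result.{u}.2.2.1 20
        (Or.inr (Or.inr rfl))).2 hf

theorem bb_pow (d n : ℕ) (x : ULift.{u} (BB d n)) : x ^ n = 1 := by
  obtain ⟨x⟩ := x
  obtain ⟨w, rfl⟩ := QuotientGroup.mk_surjective x
  apply ULift.down_injective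
  show (QuotientGroup.mk w : BB d n) ^ n = 1
  rw [← QuotientGroup.mk_pow, QuotientGroup.eq_one_iff]
  exact Subgroup.subset_normalClosure ⟨w, rfl⟩

theorem bb_gen (d n : ℕ) : ∃ y : Fin d → ULift.{u} (BB d n), Subgroup.closure (Set.range y) = ⊤ := by
  let ψ : BB d n ≃* ULift.{u} (BB d n) := MulEquiv.ulift.symm
  let φ : FreeGroup (Fin d) →* ULift.{u} (BB d n) := ψ.toMonoidHom.comp (QuotientGroup.mk' _)
  have hφ : Function.Surjective φ := ψ.surjective.comp (QuotientGroup.mk'_surjective _)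
  refine ⟨fun i => φ (FreeGroup.of i), ?_⟩
  have h : Set.range (fun i => φ (FreeGroup.of i)) = φ '' Set.range (FreeGroup.of (α := Fin d)) := by
    rw [← Set.range_comp]
    rfl
  rw [h, ← MonoidHom.map_closure, FreeGroup.closure_range_of, Subgroup.map_top_of_surjective φ hφ]

theorem bb_finite {d n : ℕ} (h : Finite (ULift.{u} (BB d n))) : Finite (BB d n) :=
  Finite.of_surjective (ULift.down : ULift.{u} (BB d n) → BB d n) ULift.down_surjective

end Pool.Agent.H392.OC
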